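import Pool.Agent.U840.BL.Main

/-!
# Zero-cycles on covers of symmetric products
-/

set_option autoImplicit false

namespace Pool.Agent.U840.BL

open MvPolynomial Finset Pool.Agent.T2H37.FK Pool.Agent.T2H37.PR Pool.Agent.U840.VS

/-- The point `y` of the power `X ^ r` of the Fermat hypersurface `X` is the image of the point `x`
under the automorphism of `X ^ r` which permutes the factors by `σ` and multiplies the homogeneous
coordinates on the `j`-th factor by the numbers `ζ j`: the `j`-th component of `y` is the point with the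
homogeneous coordinates `ζ j i * x (σ j) i`. -/
def Moved {𝕜 : Type*} [Field 𝕜] {N m r : ℕ} (ζ : Fin r → Fin N → 𝕜) (σ : Equiv.Perm (Fin r))
    (x y : Pts 𝕜 (fun _ : Fin r => N) m) : Prop :=
  ∀ j, ∃ c : 𝕜, ∀ i, (y j).1.rep i = c * (ζ j i * (x (σ j)).1.rep i)

variable {𝕜 : Type*} [Field 𝕜] [IsAlgClosed 𝕜] [CharZero 𝕜] {N m r : ℕ} [NeZero m]

lemma moved_mv (g : Fin r → Fin N → ZMod m) (σ : Equiv.Perm (Fin r))
    (x : Pts 𝕜 (fun _ : Fin r => N) m) : Moved (fun j i => e 𝕜 (g j i)) σ x (mv g σ x) := by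
  intro j
  obtain ⟨c, hc⟩ := Projectivization.exists_smul_eq_mk_rep 𝕜
    (dgP (N := fun _ : Fin r => N) g (fun j => (x (σ j)).1.rep) j)
    (onP_dg (N := fun _ : Fin r => N) g (fun j => onX_rep (x (σ j))) j).1
  refine ⟨c, fun i => ?_⟩
  have h1 : (mv g σ x j).1.rep = c • dgP (N := fun _ : Fin r => N) g (fun j => (x (σ j)).1.rep) j :=
    hc.symm
  rw [h1]
  rfl

lemma prP_single (α : Fin r → Fin N → ZMod m) (j : Fin r) (i : Fin N) (a : ZMod m) :
    prP (N := fun _ : Fin r => N) α (Pi.single j (Pi.single i a)) = α j i * a := by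
  have h1 := pr_single_add (N := fun _ : Fin r => N) α 0 j (Pi.single i a)
  have h2 : prP (N := fun _ : Fin r => N) α 0 = 0 := by simp [prP, pr]
  rw [zero_add, h2, zero_add] at h1
  rw [h1, pr, sum_eq_single i]
  · rw [Pi.single_eq_same]
  · intro l _ hl
    rw [Pi.single_eq_of_ne hl, mul_zero]
  · intro h
    exact absurd (mem_univ i) h

/-- The last step of both theorems. -/
lemma LL_zero_main (hN : 2 ≤ N) {φ : Pts 𝕜 (fun _ : Fin r => N) m → 𝕜}
    (hφ : GoodP (N := fun _ : Fin r => N) m (extP φ)) {α : Fin r → Fin N → ZMod m}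
    {z : Pts 𝕜 (fun _ : Fin r => N) m →₀ ℤ} (hz : (z.sum fun _ c => c) = 0) (i₀ : Fin N)
    (h0 : ∀ j l, α j i₀ = α l i₀)
    (hcomb : (∀ j, Prim (α j)) → ∃ j l, j ≠ l ∧ (α j = α l ∨ Opp (α j) (α l)))
    (hex : (∀ j, Prim (α j)) → ∀ j l, j ≠ l → ∃ (g : Fin r → Fin N → ZMod m) (t : ℤ), t * t = 1 ∧
      (∀ x, z (mv g (Equiv.swap j l) x) = t * z x) ∧
      (t : 𝕜) * e 𝕜 (prP (N := fun _ : Fin r => N) α g) * (-1) ^ N = -1) : LL φ α z = 0 := by
  by_contra hne
  have hα0 : ∀ j, α j i₀ ≠ 0 := by
    intro j hj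
    apply hne
    by_cases hα : α = 0
    · rw [hα]
      exact LL_zero_zero hN hφ hz
    · obtain ⟨l, hl⟩ : ∃ l, α l ≠ 0 := by
        by_contra hcon
        push Not at hcon
        exact hα (funext hcon)
      refine LL_zero_of (fun x => ?_) z
      refine hφ.comp_B_zero (N := fun _ : Fin r => N) (k := l) (B := {i₀})
        (singleton_nonempty _) ?_ hl ?_ (onP_rep x)
      · intro h1
        have h2 := congrArg Finset.card h1
        rw [card_singleton, card_univ, Fintype.card_fin] at h2
        omega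
      · rw [sum_singleton, h0 l j, hj]
  have hα1 : ∀ j, α j ≠ 0 := by
    intro j hj
    apply hα0 j
    rw [hj]
    rfl
  obtain ⟨x₀, hx₀⟩ : ∃ x, cmp φ α x ≠ 0 := by
    by_contra hcon
    push Not at hcon
    exact hne (LL_zero_of hcon z)
  have hP : ∀ j, Prim (α j) := fun j => prim_of_ne hφ hα1 hx₀ j
  obtain ⟨j, l, hjl, h | h⟩ := hcomb hP
  · obtain ⟨g, t, ht, hg, hs⟩ := hex hP j l hjl
    exact hne (LL_zero_of_exch hN hφ hjl h (prim_ne_zero hN (hP j)) ht hg hs)
  · exact hx₀ (cmp_zero_of_opp hN hφ hP hjl h x₀)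

/-- Bloch's conjecture for the covers given by the last `k` coordinates. -/
theorem blochA (hN : 2 ≤ N) {k : ℕ} (hk1 : 1 ≤ k) (hk : k ≤ N - 1)
    (hr : (m - 1 - k).choose (N - 1 - k) < r) (z : Pts 𝕜 (fun _ : Fin r => N) m →₀ ℤ)
    (hz : (z.sum fun _ c => c) = 0)
    (hinv : ∀ (ζ : Fin r → Fin N → 𝕜) (σ : Equiv.Perm (Fin r)), (∀ j i, ζ j i ^ m = 1) →
      (∀ j i, (i : Fin N).val < N - k → ζ j i = 1) → (∀ i, ∏ j, ζ j i = 1) →
      ∀ x y, Moved ζ σ x y → z y = (Equiv.Perm.sign σ : ℤ) ^ (N + 1) * z x) :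
    ∃ j : ℕ, 0 < j ∧ j • z ∈ RatEquivZero 𝕜 (fun _ : Fin r => N) m := by
  refine torsion_of_LL z fun ψ hψ0 α => ?_
  have hφ := goodP_of ψ hψ0
  by_contra hne
  have hfix : ∀ j l i, N - k ≤ (i : Fin N).val → α j i = α l i := by
    intro j l i hi
    by_cases hjl : j = l
    · rw [hjl]
    by_contra hcon
    apply hne
    refine LL_zero_of_diag (g := Pi.single j (Pi.single i 1) + Pi.single l (Pi.single i (-1)))
      (fun x => ?_) ?_
    · have h1 := hinv (fun j' i' => e 𝕜 ((Pi.single j (Pi.single i 1) +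
        Pi.single l (Pi.single i (-1)) : Fin r → Fin N → ZMod m) j' i')) 1
        (fun j' i' => e_pow_m _) ?_ ?_ x _ (moved_mv _ 1 x)
      · rw [h1, Equiv.Perm.sign_one, Units.val_one, one_pow, one_mul]
      · intro j' i' hi'
        have h2 : i' ≠ i := by
          rintro rfl
          omega
        have h3 : ∀ (j₁ : Fin r) (a : ZMod m), (Pi.single j₁ (Pi.single i a) :
            Fin r → Fin N → ZMod m) j' i' = 0 := by
          intro j₁ a
          by_cases h4 : j' = j₁
          · subst h4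
            rw [Pi.single_eq_same, Pi.single_eq_of_ne h2]
          · rw [Pi.single_eq_of_ne h4, Pi.zero_apply]
        rw [Pi.add_apply, Pi.add_apply, h3, h3, add_zero, e_zero]
      · intro i'
        rw [← e_sum]
        have h3 : ∀ (j₁ : Fin r) (a : ZMod m), ∑ j', (Pi.single j₁ (Pi.single i a) :
            Fin r → Fin N → ZMod m) j' i' = (Pi.single i a : Fin N → ZMod m) i' := by
          intro j₁ a
          rw [sum_eq_single j₁]
          · rw [Pi.single_eq_same]
          · intro j' _ h4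
            rw [Pi.single_eq_of_ne h4, Pi.zero_apply]
          · intro h4
            exact absurd (mem_univ _) h4
        simp only [Pi.add_apply, sum_add_distrib]
        rw [h3, h3, ← Pi.add_apply, ← Pi.single_add, add_neg_cancel, Pi.single_zero, Pi.zero_apply,
          e_zero]
    · rw [prP_add, prP_single, prP_single, mul_one, mul_neg, mul_one]
      intro h1
      exact hcon (by linear_combination h1)
  apply hne
  have hlast : N - 1 < N := by omega
  refine LL_zero_main hN hφ hz ⟨N - 1, hlast⟩ (fun j l => hfix j l _ ?_)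
    (fun hP => exists_eq_fix (by omega) hk hr α hP hfix) fun hP j l hjl => ?_
  · change N - k ≤ N - 1
    omega
  · refine ⟨0, (-1) ^ (N + 1), ?_, fun x => ?_, ?_⟩
    · rw [← mul_pow]
      norm_num
    · have h1 := hinv (fun j' i' => e 𝕜 ((0 : Fin r → Fin N → ZMod m) j' i')) (Equiv.swap j l)
        (fun j' i' => e_pow_m _) (fun j' i' _ => e_zero) (fun i => by simp [e_zero]) x _
        (moved_mv _ _ x)
      rw [h1, Equiv.Perm.sign_swap hjl]
      rfl
    · have h2 : prP (N := fun _ : Fin r => N) α 0 = 0 := by simp [prP, pr]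
      rw [h2, e_zero]
      push_cast
      rw [mul_one, pow_succ, mul_right_comm, ← mul_pow]
      norm_num

lemma e_pow (k : ZMod m) (n : ℕ) : e 𝕜 k ^ n = e 𝕜 ((n : ZMod m) * k) := by
  rw [e_def, e_def, ← AddChar.map_nsmul_eq_pow, nsmul_eq_mul]

omit [NeZero m] in
lemma sum_single_last (j : Fin r) (i i' : Fin N) (a : ZMod m) :
    ∑ j', (Pi.single j (Pi.single i a) : Fin r → Fin N → ZMod m) j' i' =
      (Pi.single i a : Fin N → ZMod m) i' := by
  rw [sum_eq_single j]
  · rw [Pi.single_eq_same]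
  · intro j' _ h4
    rw [Pi.single_eq_of_ne h4, Pi.zero_apply]
  · intro h4
    exact absurd (mem_univ _) h4

omit [NeZero m] in
lemma single_off {j j' : Fin r} {i i' : Fin N} (h : j' ≠ j ∨ i' ≠ i) (a : ZMod m) :
    (Pi.single j (Pi.single i a) : Fin r → Fin N → ZMod m) j' i' = 0 := by
  by_cases h4 : j' = j
  · subst h4
    rw [Pi.single_eq_same, Pi.single_eq_of_ne (h.resolve_left fun h5 => h5 rfl)]
  · rw [Pi.single_eq_of_ne h4, Pi.zero_apply]

lemma e_half {g : ℕ} [NeZero (2 * g)] (hg : 0 < g) : e 𝕜 ((g : ℕ) : ZMod (2 * g)) = -1 := by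
  have h1 : e 𝕜 ((g : ℕ) : ZMod (2 * g)) ^ 2 = 1 := by
    rw [e_pow]
    have h2 : ((2 : ℕ) : ZMod (2 * g)) * ((g : ℕ) : ZMod (2 * g)) = 0 := by
      rw [← Nat.cast_mul, ZMod.natCast_self]
    rw [h2, e_zero]
  have h3 : (e 𝕜 ((g : ℕ) : ZMod (2 * g)) - 1) * (e 𝕜 ((g : ℕ) : ZMod (2 * g)) + 1) = 0 := by
    linear_combination h1
  rcases mul_eq_zero.1 h3 with h | h
  · exfalso
    have h4 : e 𝕜 ((g : ℕ) : ZMod (2 * g)) = e 𝕜 (0 : ZMod (2 * g)) := by
      rw [e_zero]
      exact sub_eq_zero.1 h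
    have h5 := e_inj h4
    rw [ZMod.natCast_eq_zero_iff] at h5
    have := Nat.le_of_dvd hg h5
    omega
  · linear_combination h

/-- Bloch's conjecture for double covers of symmetric products. -/
theorem blochB {N₀ m₀ s M g : ℕ} [NeZero (2 * g)] (hM : M = N₀ + s) (hgm : g = 2 ^ s * m₀)
    (hN₀ : 1 ≤ N₀) (hm₀ : 0 < m₀) (hr : (m₀ - 1).choose (N₀ - 1) < r)
    (z : Pts 𝕜 (fun _ : Fin r => M + 1) (2 * g) →₀ ℤ) (hz : (z.sum fun _ c => c) = 0)
    (hinv : ∀ (ζ : Fin r → Fin (M + 1) → 𝕜) (σ : Equiv.Perm (Fin r)),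
      (∀ j i, ζ j i ^ (2 * g) = 1) → (∀ j i, (i : Fin (M + 1)).val < N₀ → ζ j i = 1) →
      (∀ j i, N₀ ≤ (i : Fin (M + 1)).val → i.val < M → ζ j i ^ (2 ^ (i.val - N₀) * m₀) = 1) →
      (∏ j, ζ j (Fin.last M)) ^ g = (((Equiv.Perm.sign σ : ℤ) ^ M : ℤ) : 𝕜) →
      ∀ x y, Moved ζ σ x y → z y = z x) :
    ∃ j : ℕ, 0 < j ∧ j • z ∈ RatEquivZero 𝕜 (fun _ : Fin r => M + 1) (2 * g) := by
  have hg0 : 0 < g := by
    rw [hgm]
    positivity
  have hgc : ((2 : ZMod (2 * g)) * (g : ZMod (2 * g))) = 0 := by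
    have h2 : ((2 * g : ℕ) : ZMod (2 * g)) = 0 := ZMod.natCast_self _
    push_cast at h2
    exact h2
  refine torsion_of_LL z fun ψ hψ0 α => ?_
  have hφ := goodP_of ψ hψ0
  by_contra hne
  have hw : ∀ j i, N₀ ≤ (i : Fin (M + 1)).val → i.val < M →
      (2 : ZMod (2 * g)) ^ (M + 1 - i.val) * α j i = 0 := by
    intro j i hi hi'
    by_contra hcon
    apply hne
    refine LL_zero_of_diag (g := Pi.single j (Pi.single i (2 ^ (M + 1 - i.val)))) (fun x => ?_) ?_
    · refine hinv _ 1 (fun j' i' => e_pow_m _) ?_ ?_ ?_ x _ (moved_mv _ 1 x)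
      · intro j' i' hi''
        rw [single_off (Or.inr (by rintro rfl; omega)), e_zero]
      · intro j' i' h1 h2
        by_cases h3 : j' ≠ j ∨ i' ≠ i
        · rw [single_off h3, e_zero, one_pow]
        · push Not at h3
          obtain ⟨rfl, rfl⟩ := h3
          rw [Pi.single_eq_same, Pi.single_eq_same, e_pow]
          have h4 : ((2 ^ (i'.val - N₀) * m₀ : ℕ) : ZMod (2 * g)) * 2 ^ (M + 1 - i'.val) = 0 := by
            have h5 : 2 ^ (i'.val - N₀) * m₀ * 2 ^ (M + 1 - i'.val) = 2 * g := by
              have h6 : M + 1 - i'.val = (s - (i'.val - N₀)) + 1 := by omega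
              rw [h6, pow_succ, hgm]
              have h7 : 2 ^ s = 2 ^ (i'.val - N₀) * 2 ^ (s - (i'.val - N₀)) := by
                rw [← pow_add]
                congr 1
                omega
              rw [h7]
              ring
            have h8 := congrArg (Nat.cast : ℕ → ZMod (2 * g)) h5
            rw [ZMod.natCast_self] at h8
            push_cast at h8 ⊢
            exact h8
          rw [h4, e_zero]
      · rw [← e_sum, sum_single_last, Pi.single_eq_of_ne (by
          rintro rfl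
          rw [Fin.val_last] at hi'
          exact lt_irrefl _ hi'), e_zero, one_pow, Equiv.Perm.sign_one]
        simp
    · rw [prP_single]
      intro h1
      exact hcon (by linear_combination h1)
  have hl2 : ∀ j l, α j (Fin.last M) + α l (Fin.last M) = 0 := by
    intro j l
    by_contra hcon
    apply hne
    refine LL_zero_of_diag (g := Pi.single j (Pi.single (Fin.last M) 1) +
      Pi.single l (Pi.single (Fin.last M) 1)) (fun x => ?_) ?_
    · refine hinv _ 1 (fun j' i' => e_pow_m _) ?_ ?_ ?_ x _ (moved_mv _ 1 x)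
      · intro j' i' hi''
        have h1 : i' ≠ Fin.last M := by
          rintro rfl
          rw [Fin.val_last] at hi''
          omega
        rw [Pi.add_apply, Pi.add_apply, single_off (Or.inr h1), single_off (Or.inr h1), add_zero,
          e_zero]
      · intro j' i' _ hi''
        have h1 : i' ≠ Fin.last M := by
          rintro rfl
          rw [Fin.val_last] at hi''
          omega
        rw [Pi.add_apply, Pi.add_apply, single_off (Or.inr h1), single_off (Or.inr h1), add_zero,
          e_zero, one_pow]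
      · rw [← e_sum]
        simp only [Pi.add_apply, sum_add_distrib]
        rw [sum_single_last, sum_single_last, Pi.single_eq_same, e_pow]
        have h1 : ((g : ℕ) : ZMod (2 * g)) * (1 + 1) = 0 := by linear_combination hgc
        rw [h1, e_zero, Equiv.Perm.sign_one]
        simp
    · rw [prP_add, prP_single, prP_single, mul_one, mul_one]
      exact hcon
  apply hne
  have hM1 : 1 ≤ M := by omega
  have hw' : ∀ j i, N₀ ≤ (i : Fin (M + 1)).val → (2 : ZMod (2 * g)) ^ (M + 1 - i.val) * α j i = 0 := by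
    intro j i hi
    by_cases h1 : i.val < M
    · exact hw j i hi h1
    · have h2 : i = Fin.last M := by
        apply Fin.ext
        rw [Fin.val_last]
        have := i.2
        omega
      subst h2
      rw [Fin.val_last, Nat.add_sub_cancel_left, pow_one]
      linear_combination hl2 j j
  refine LL_zero_main (by omega) hφ hz (Fin.last M) (fun j l => ?_)
    (fun hP => exists_eq_tower hN₀ hm₀ hr (s + 1) (by omega) (by rw [hgm]; ring) α hP hw')
    fun hP j l hjl => ?_
  · linear_combination hl2 j l - hl2 l l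
  · have hlast : α j (Fin.last M) = g := by
      have h1 : 2 * α j (Fin.last M) = 0 := by linear_combination hl2 j j
      rcases cast_eq_zero hg0 (cast_of_two hg0 h1) with h2 | h2
      · exact absurd h2 (prim_ne_zero (by omega) (hP j) _)
      · exact h2
    have hpow : e 𝕜 (((g : ℕ) : ZMod (2 * g)) * (M : ZMod (2 * g))) = (-1) ^ M := by
      rw [mul_comm ((g : ℕ) : ZMod (2 * g)), ← e_pow, e_half hg0]
    refine ⟨Pi.single j (Pi.single (Fin.last M) (M : ZMod (2 * g))), 1, by norm_num, fun x => ?_, ?_⟩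
    · rw [one_mul]
      refine hinv _ (Equiv.swap j l) (fun j' i' => e_pow_m _) ?_ ?_ ?_ x _ (moved_mv _ _ x)
      · intro j' i' hi''
        have h1 : i' ≠ Fin.last M := by
          rintro rfl
          rw [Fin.val_last] at hi''
          omega
        rw [single_off (Or.inr h1), e_zero]
      · intro j' i' _ hi''
        have h1 : i' ≠ Fin.last M := by
          rintro rfl
          rw [Fin.val_last] at hi''
          omega
        rw [single_off (Or.inr h1), e_zero, one_pow]
      · rw [← e_sum, sum_single_last, Pi.single_eq_same, e_pow, hpow, Equiv.Perm.sign_swap hjl]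
        push_cast
        rfl
    · rw [prP_single, hlast, hpow, Int.cast_one, one_mul, pow_succ, ← mul_assoc, ← mul_pow]
      norm_num

end Pool.Agent.U840.BL
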