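import Pool.Agent.U840.BL.Check

/-!
# Weights of K3 surfaces and of Calabi-Yau threefolds, part one
-/

set_option autoImplicit false
set_option maxRecDepth 100000

namespace Pool.Agent.U840.BL

/-- Degrees and weights of weighted Fermat K3 surfaces. -/
def k3List : List (ℕ × List ℕ) :=
  [(4, [1, 1, 1, 1]), (6, [1, 1, 1, 3]), (6, [1, 1, 2, 2]), (8, [1, 1, 2, 4]), (10, [1, 2, 2, 5]),
    (12, [1, 2, 3, 6]), (12, [2, 3, 3, 4])]

theorem k3_chk : ∀ p ∈ k3List, chk p.1 p.2 = true := by
  intro p hp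
  simp only [k3List, List.mem_cons, List.not_mem_nil, or_false] at hp
  rcases hp with rfl | rfl | rfl | rfl | rfl | rfl | rfl <;> decide +kernel

theorem chkA1 : chk 5 [1, 1, 1, 1, 1] = true := by decide +kernel
theorem chkA2 : chk 6 [1, 1, 1, 1, 2] = true := by decide +kernel
theorem chkA3 : chk 8 [1, 1, 1, 1, 4] = true := by decide +kernel
theorem chkA4 : chk 8 [1, 1, 2, 2, 2] = true := by decide +kernel
theorem chkA5 : chk 9 [1, 1, 1, 3, 3] = true := by decide +kernel
theorem chkA6 : chk 10 [1, 1, 1, 2, 5] = true := by decide +kernel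

end Pool.Agent.U840.BL
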