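import Pool.Agent.U840.BL.Check

/-!
# Weights of Calabi-Yau threefolds, part two
-/

set_option autoImplicit false
set_option maxRecDepth 100000

namespace Pool.Agent.U840.BL

theorem chkB1 : chk 12 [1, 1, 1, 3, 6] = true := by decide +kernel
theorem chkB2 : chk 12 [1, 1, 2, 2, 6] = true := by decide +kernel
theorem chkB3 : chk 12 [1, 1, 2, 4, 4] = true := by decide +kernel
theorem chkB4 : chk 12 [1, 2, 2, 3, 4] = true := by decide +kernel
theorem chkB5 : chk 12 [1, 2, 3, 3, 3] = true := by decide +kernel
theorem chkB6 : chk 12 [2, 2, 2, 3, 3] = true := by decide +kernel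

end Pool.Agent.U840.BL
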