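import Pool.Agent.U840.BL.Check

/-!
# Weights of Calabi-Yau threefolds, part three
-/

set_option autoImplicit false
set_option maxRecDepth 100000

namespace Pool.Agent.U840.BL

theorem chkC1 : chk 14 [1, 2, 2, 2, 7] = true := by decide +kernel
theorem chkC2 : chk 16 [1, 1, 2, 4, 8] = true := by decide +kernel
theorem chkC3 : chk 18 [1, 2, 3, 3, 9] = true := by decide +kernel
theorem chkC4 : chk 18 [1, 2, 3, 6, 6] = true := by decide +kernel
theorem chkC5 : chk 18 [2, 2, 2, 3, 9] = true := by decide +kernel

end Pool.Agent.U840.BL
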