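import Pool.Agent.U840.BL.Check

/-!
# Weights of Calabi-Yau threefolds, part four
-/

set_option autoImplicit false
set_option maxRecDepth 100000

namespace Pool.Agent.U840.BL

theorem chkD1 : chk 20 [1, 2, 2, 5, 10] = true := by decide +kernel
theorem chkD2 : chk 20 [2, 4, 4, 5, 5] = true := by decide +kernel
theorem chkD3 : chk 24 [1, 2, 3, 6, 12] = true := by decide +kernel
theorem chkD4 : chk 24 [2, 3, 3, 4, 12] = true := by decide +kernel
theorem chkD5 : chk 24 [3, 3, 4, 6, 8] = true := by decide +kernel
theorem chkD6 : chk 30 [3, 5, 6, 6, 10] = true := by decide +kernel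

end Pool.Agent.U840.BL
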