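import Pool.Agent.U840.BL.Push
import Pool.Agent.U840.BL.ListA
import Pool.Agent.U840.BL.ListB
import Pool.Agent.U840.BL.ListC
import Pool.Agent.U840.BL.ListD

/-!
# Symmetric zero-cycles on powers of weighted Fermat Calabi-Yau varieties
-/

set_option autoImplicit false

namespace Pool.Agent.U840.BL

open MvPolynomial Finset Pool.Agent.T2H37.FK Pool.Agent.T2H37.PR Pool.Agent.U840.VS

/-- Degrees and weights of weighted Fermat Calabi-Yau threefolds. -/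
def cy3List : List (ℕ × List ℕ) :=
  [(5, [1, 1, 1, 1, 1]), (6, [1, 1, 1, 1, 2]), (8, [1, 1, 1, 1, 4]), (8, [1, 1, 2, 2, 2]),
    (9, [1, 1, 1, 3, 3]), (10, [1, 1, 1, 2, 5]), (12, [1, 1, 1, 3, 6]), (12, [1, 1, 2, 2, 6]),
    (12, [1, 1, 2, 4, 4]), (12, [1, 2, 2, 3, 4]), (12, [1, 2, 3, 3, 3]), (12, [2, 2, 2, 3, 3]),
    (14, [1, 2, 2, 2, 7]), (16, [1, 1, 2, 4, 8]), (18, [1, 2, 3, 3, 9]), (18, [1, 2, 3, 6, 6]),
    (18, [2, 2, 2, 3, 9]), (20, [1, 2, 2, 5, 10]), (20, [2, 4, 4, 5, 5]), (24, [1, 2, 3, 6, 12]),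
    (24, [2, 3, 3, 4, 12]), (24, [3, 3, 4, 6, 8]), (30, [3, 5, 6, 6, 10])]

theorem cy3_chk : ∀ p ∈ cy3List, chk p.1 p.2 = true := by
  intro p hp
  simp only [cy3List, List.mem_cons, List.not_mem_nil, or_false] at hp
  rcases hp with rfl | rfl | rfl | rfl | rfl | rfl | rfl | rfl | rfl | rfl | rfl | rfl | rfl |
    rfl | rfl | rfl | rfl | rfl | rfl | rfl | rfl | rfl | rfl
  exacts [chkA1, chkA2, chkA3, chkA4, chkA5, chkA6, chkB1, chkB2, chkB3, chkB4, chkB5, chkB6,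
    chkC1, chkC2, chkC3, chkC4, chkC5, chkD1, chkD2, chkD3, chkD4, chkD5, chkD6]

theorem k3_dvd : ∀ p ∈ k3List, 0 < p.1 ∧ ∀ a ∈ p.2, a ∣ p.1 := by decide

theorem cy3_dvd : ∀ p ∈ cy3List, 0 < p.1 ∧ ∀ a ∈ p.2, a ∣ p.1 := by decide

/-- The zero-cycle `Z` on the power `X ^ r` of the Fermat hypersurface `X` of degree `m` is invariant
under the `r`-tuples of diagonal matrices whose `i`-th entries are `w i`-th roots of unity; so it
comes from a zero-cycle on the `r`-th power of the weighted Fermat hypersurface with the weights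
`w`. -/
def WtInv {𝕜 : Type*} [Field 𝕜] {N m r : ℕ} (w : Fin N → ℕ)
    (Z : Pts 𝕜 (fun _ : Fin r => N) m →₀ ℤ) : Prop :=
  ∀ ζ : Fin r → Fin N → 𝕜, (∀ j i, ζ j i ^ w i = 1) → ∀ x y, Moved ζ 1 x y → Z y = Z x

variable {𝕜 : Type*} [Field 𝕜] [IsAlgClosed 𝕜] [CharZero 𝕜] {N m q : ℕ}

/-- the permutation of the factors as a bijection -/
def prm (σ : Equiv.Perm (Fin (q + 1))) :
    Pts 𝕜 (fun _ : Fin (q + 1) => N) m ≃ Pts 𝕜 (fun _ : Fin (q + 1) => N) m where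
  toFun x := fun j => x (σ j)
  invFun x := fun j => x (σ.symm j)
  left_inv x := by
    funext j
    exact congrArg (fun i => (x i : Fermat 𝕜 N m)) (σ.apply_symm_apply j)
  right_inv x := by
    funext j
    exact congrArg (fun i => (x i : Fermat 𝕜 N m)) (σ.symm_apply_apply j)

lemma forget_prm (k : Fin (q + 1)) : ∃ σ : Equiv.Perm (Fin (q + 1)),
    ∀ x : Pts 𝕜 (fun _ : Fin (q + 1) => N) m, forget k x = forget (Fin.last q) (prm σ x) := by
  refine ⟨(finSuccEquiv' (Fin.last q)).trans (finSuccEquiv' k).symm, fun x => ?_⟩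
  funext j
  have h1 : ((finSuccEquiv' (Fin.last q)).trans (finSuccEquiv' k).symm) ((Fin.last q).succAbove j) =
      k.succAbove j := by
    rw [Equiv.trans_apply, finSuccEquiv'_succAbove, finSuccEquiv'_symm_some]
  exact congrArg (fun i => (x i : Fermat 𝕜 N m)) h1.symm

lemma push_all {Z : Pts 𝕜 (fun _ : Fin (q + 1) => N) m →₀ ℤ}
    (hsym : ∀ (σ : Equiv.Perm (Fin (q + 1))) x, Z (fun j => x (σ j)) =
      (Equiv.Perm.sign σ : ℤ) ^ (N + 1) * Z x)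
    (hp : ∃ j : ℕ, 0 < j ∧ j • Z.mapDomain (forget (Fin.last q)) ∈
      RatEquivZero 𝕜 (fun _ : Fin q => N) m) (k : Fin (q + 1)) :
    ∃ j : ℕ, 0 < j ∧ j • Z.mapDomain (forget k) ∈ RatEquivZero 𝕜 (fun _ : Fin q => N) m := by
  classical
  obtain ⟨σ, hσ⟩ := forget_prm (𝕜 := 𝕜) (N := N) (m := m) k
  obtain ⟨j, hj, hjp⟩ := hp
  refine ⟨j, hj, ?_⟩
  have h1 : Z.mapDomain (prm σ) = ((Equiv.Perm.sign σ : ℤ) ^ (N + 1)) • Z := by
    ext y
    have h2 : Z.mapDomain (prm σ) y = Z ((prm (𝕜 := 𝕜) (N := N) (m := m) σ).symm y) := by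
      conv_lhs => rw [← (prm (𝕜 := 𝕜) (N := N) (m := m) σ).apply_symm_apply y]
      rw [Finsupp.mapDomain_apply (prm (𝕜 := 𝕜) (N := N) (m := m) σ).injective]
    have h3 : Z y = (Equiv.Perm.sign σ : ℤ) ^ (N + 1) *
        Z ((prm (𝕜 := 𝕜) (N := N) (m := m) σ).symm y) := by
      have h4 := hsym σ ((prm (𝕜 := 𝕜) (N := N) (m := m) σ).symm y)
      have h5 : (fun i => (prm (𝕜 := 𝕜) (N := N) (m := m) σ).symm y (σ i)) = y :=
        (prm (𝕜 := 𝕜) (N := N) (m := m) σ).apply_symm_apply y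
      rw [h5] at h4
      exact h4
    rw [h2, Finsupp.smul_apply, smul_eq_mul, h3, ← mul_assoc, ← mul_pow, ← Units.val_mul,
      Int.units_mul_self, Units.val_one, one_pow, one_mul]
  have h2 : Z.mapDomain (forget k) =
      ((Equiv.Perm.sign σ : ℤ) ^ (N + 1)) • Z.mapDomain (forget (Fin.last q)) := by
    have h3 : (forget k : Pts 𝕜 (fun _ : Fin (q + 1) => N) m → _) =
        forget (Fin.last q) ∘ prm σ := funext hσ
    rw [h3, Finsupp.mapDomain_comp, h1]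
    exact map_zsmul (Finsupp.mapDomain.addMonoidHom (M := ℤ) (forget (Fin.last q))) _ Z
  rw [h2, smul_comm]
  exact (RatEquivZero 𝕜 (fun _ : Fin q => N) m).zsmul_mem hjp _

/-- Symmetric zero-cycles with torsion push-forward are torsion, for the weights which pass the
check. -/
theorem symChk (hN : 3 ≤ N) (hm : 0 < m) {w : Fin N → ℕ} (hw : ∀ i, w i ∣ m)
    (hchk : chk m (List.ofFn w) = true) (hq : 1 ≤ q)
    {Z : Pts 𝕜 (fun _ : Fin (q + 1) => N) m →₀ ℤ}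
    (hsym : ∀ (σ : Equiv.Perm (Fin (q + 1))) x, Z (fun j => x (σ j)) =
      (Equiv.Perm.sign σ : ℤ) ^ (N + 1) * Z x)
    (hinv : WtInv w Z)
    (hp : ∃ j : ℕ, 0 < j ∧ j • Z.mapDomain (forget (Fin.last q)) ∈
      RatEquivZero 𝕜 (fun _ : Fin q => N) m) :
    ∃ j : ℕ, 0 < j ∧ j • Z ∈ RatEquivZero 𝕜 (fun _ : Fin (q + 1) => N) m := by
  have : NeZero m := ⟨hm.ne'⟩
  refine symPush (by omega) hw (fun α hα hα' => ?_) hsym hinv (push_all hsym hp)
  refine ⟨0, Fin.last q, ?_, chk_sound hN hw hchk (hα _) (hα _) (hα' _) (hα' _)⟩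
  intro h
  have h1 := congrArg Fin.val h
  rw [Fin.val_zero, Fin.val_last] at h1
  omega

/-- Voisin's conjecture for exterior products, for the weights which pass the check. -/
theorem voisinChk (hN : 3 ≤ N) (hm : 0 < m) {w : Fin N → ℕ} (hw : ∀ i, w i ∣ m)
    (hchk : chk m (List.ofFn w) = true)
    (z : Fin 2 → (Fermat 𝕜 N m →₀ ℤ)) (hz : ∀ i, ((z i).sum fun _ c => c) = 0)
    (hinv : ∀ ζ : Fin N → 𝕜, (∀ i, ζ i ^ w i = 1) → ∀ x y : Fermat 𝕜 N m,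
      (∃ c : 𝕜, ∀ i, y.1.rep i = c * (ζ i * x.1.rep i)) → ∀ k, z k y = z k x) :
    ∃ j : ℕ, 0 < j ∧ j • ∑ σ : Equiv.Perm (Fin 2), ((Equiv.Perm.sign σ : ℤ) ^ (N + 1)) •
      extProd (N := fun _ : Fin 2 => N) (fun k => z (σ k)) ∈
      RatEquivZero 𝕜 (fun _ : Fin 2 => N) m := by
  have : NeZero m := ⟨hm.ne'⟩
  exact voisinW (by omega) hw (fun α hα hα' => ⟨0, 1, by decide,
    chk_sound hN hw hchk (hα _) (hα _) (hα' _) (hα' _)⟩) z hz hinv

end Pool.Agent.U840.BL
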