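import Pool.Agent.U840.BL.Sym

/-!
# A check for the characters with given weights
-/

set_option autoImplicit false

namespace Pool.Agent.U840.BL

open Finset Pool.Agent.U840.VS

/-- the multiples of `w` between `1` and `m - 1` -/
def mult (m w : ℕ) : List ℕ :=
  (List.range m).filter fun a => !(Nat.beq a 0) && Nat.beq (a % w) 0

/-- the lists of multiples of given weights -/
def enum (m : ℕ) : List ℕ → List (List ℕ)
  | [] => [[]]
  | w :: ws => (mult m w).flatMap fun a => (enum m ws).map (a :: ·)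

/-- no entry of the list is the negative of `a` -/
def nz (m a : ℕ) : List ℕ → Bool
  | [] => true
  | b :: l => !(Nat.beq ((a + b) % m) 0) && nz m a l

/-- no two entries have the sum zero -/
def pwz (m : ℕ) : List ℕ → Bool
  | [] => true
  | a :: l => nz m a l && pwz m l

/-- the sum is zero, the sums of two entries are not zero -/
def okl (m : ℕ) (l : List ℕ) : Bool := Nat.beq (l.sum % m) 0 && pwz m l

/-- the assignments of blocks -/
def asg : ℕ → List (List ℕ)
  | 0 => [[]]
  | n + 1 => (asg n).flatMap fun l => [0 :: l, 1 :: l, 2 :: l]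

/-- membership -/
def has (B : ℕ) : List ℕ → Bool
  | [] => false
  | b :: l => Nat.beq b B || has B l

/-- the surjective assignments of blocks -/
def asg3 (n : ℕ) : List (List ℕ) := (asg n).filter fun l => has 0 l && has 1 l && has 2 l

/-- the sum over a block -/
def bsum (B : ℕ) : List ℕ → List ℕ → ℕ
  | b :: bs, a :: as => (if Nat.beq b B then a else 0) + bsum B bs as
  | _, _ => 0

/-- the code of a block decomposition -/
def code (m : ℕ) (l b : List ℕ) : ℕ := (bsum 0 b l % m) * m + bsum 1 b l % m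

/-- the code of the negative of a block decomposition -/
def ncode (m : ℕ) (l b : List ℕ) : ℕ :=
  ((m - bsum 0 b l % m) % m) * m + (m - bsum 1 b l % m) % m

/-- the number with given binary digits -/
def bits : List ℕ → ℕ
  | [] => 0
  | c :: l => Nat.lor (2 ^ c) (bits l)

/-- `a` has a common digit with all the second numbers -/
def al (a : ℕ) : List (ℕ × ℕ) → Bool
  | [] => true
  | b :: t => !(Nat.beq (Nat.land a b.2) 0) && al a t

/-- all pairs have a common digit -/
def pw : List (ℕ × ℕ) → Bool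
  | [] => true
  | a :: t => al a.1 t && pw t

/-- the check -/
def chk (m : ℕ) (ws : List ℕ) : Bool :=
  pw (((enum m ws).filter (okl m)).map fun l =>
    (bits ((asg3 ws.length).map (code m l)), bits ((asg3 ws.length).map (ncode m l))))

/-! ### Soundness -/

lemma not_beq (a b : ℕ) : (!(Nat.beq a b)) = true ↔ a ≠ b := by
  rw [Bool.not_eq_true', ← Bool.not_eq_true, Nat.beq_eq]

lemma mem_mult {m w a : ℕ} : a ∈ mult m w ↔ a < m ∧ a ≠ 0 ∧ a % w = 0 := by
  rw [mult, List.mem_filter, List.mem_range, Bool.and_eq_true, not_beq, Nat.beq_eq]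

lemma mem_enum {m : ℕ} : ∀ {n : ℕ} (w a : Fin n → ℕ), (∀ i, a i ∈ mult m (w i)) →
    List.ofFn a ∈ enum m (List.ofFn w)
  | 0, w, a, _ => by simp [enum]
  | n + 1, w, a, h => by
    rw [List.ofFn_succ, List.ofFn_succ, enum, List.mem_flatMap]
    exact ⟨a 0, h 0, List.mem_map.2 ⟨_, mem_enum (fun i => w i.succ) (fun i => a i.succ)
      fun i => h i.succ, rfl⟩⟩

lemma nz_iff {m a : ℕ} {l : List ℕ} : nz m a l = true ↔ ∀ b ∈ l, (a + b) % m ≠ 0 := by
  induction l with
  | nil => simp [nz]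
  | cons b l ih => rw [nz, Bool.and_eq_true, not_beq, ih, List.forall_mem_cons]

lemma pwz_iff {m : ℕ} {l : List ℕ} : pwz m l = true ↔ l.Pairwise fun a b => (a + b) % m ≠ 0 := by
  induction l with
  | nil => simp [pwz]
  | cons a l ih => simp only [pwz, Bool.and_eq_true, nz_iff, ih, List.pairwise_cons]

lemma has_iff {B : ℕ} {l : List ℕ} : has B l = true ↔ B ∈ l := by
  induction l with
  | nil => simp [has]
  | cons b l ih =>
    simp only [has, Bool.or_eq_true, Nat.beq_eq, ih, List.mem_cons]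
    constructor
    · rintro (h | h)
      · exact Or.inl h.symm
      · exact Or.inr h
    · rintro (h | h)
      · exact Or.inl h.symm
      · exact Or.inr h

lemma asg_ofFn : ∀ {n : ℕ} {b : List ℕ}, b ∈ asg n →
    ∃ f : Fin n → Fin 3, b = List.ofFn fun i => (f i).val
  | 0, b, h => by
    refine ⟨Fin.elim0, ?_⟩
    simpa [asg] using h
  | n + 1, b, h => by
    rw [asg, List.mem_flatMap] at h
    obtain ⟨l, hl, hb⟩ := h
    obtain ⟨f, rfl⟩ := asg_ofFn hl
    simp only [List.mem_cons, List.not_mem_nil, or_false] at hb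
    rcases hb with rfl | rfl | rfl
    · exact ⟨Fin.cons 0 f, by rw [List.ofFn_succ]; simp⟩
    · exact ⟨Fin.cons 1 f, by rw [List.ofFn_succ]; simp⟩
    · exact ⟨Fin.cons 2 f, by rw [List.ofFn_succ]; simp⟩

lemma bsum_ofFn (B : ℕ) : ∀ {n : ℕ} (b a : Fin n → ℕ),
    bsum B (List.ofFn b) (List.ofFn a) = ∑ i, if b i = B then a i else 0
  | 0, b, a => by simp [bsum]
  | n + 1, b, a => by
    rw [List.ofFn_succ, List.ofFn_succ, bsum, Fin.sum_univ_succ, bsum_ofFn B (fun i => b i.succ)
      (fun i => a i.succ)]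
    congr 1
    by_cases h : b 0 = B
    · simp [h]
    · rw [if_neg h, if_neg]
      rw [Nat.beq_eq]
      exact h

lemma testBit_bits {l : List ℕ} {i : ℕ} : (bits l).testBit i = true ↔ i ∈ l := by
  induction l with
  | nil => simp [bits]
  | cons c l ih =>
    have h1 : bits (c :: l) = 2 ^ c ||| bits l := rfl
    rw [h1, Nat.testBit_or, Bool.or_eq_true, ih, Nat.testBit_two_pow, List.mem_cons,
      decide_eq_true_eq]
    constructor
    · rintro (h | h)
      · exact Or.inl h.symm
      · exact Or.inr h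
    · rintro (h | h)
      · exact Or.inl h.symm
      · exact Or.inr h

lemma common_of_land {l l' : List ℕ} (h : Nat.land (bits l) (bits l') ≠ 0) :
    ∃ c, c ∈ l ∧ c ∈ l' := by
  by_contra hcon
  push Not at hcon
  apply h
  change bits l &&& bits l' = 0
  refine Nat.zero_of_testBit_eq_false fun i => ?_
  rw [Nat.testBit_and]
  by_contra h1
  rw [Bool.not_eq_false, Bool.and_eq_true, testBit_bits, testBit_bits] at h1
  exact hcon i h1.1 h1.2

lemma al_iff {a : ℕ} {l : List (ℕ × ℕ)} : al a l = true ↔ ∀ b ∈ l, Nat.land a b.2 ≠ 0 := by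
  induction l with
  | nil => simp [al]
  | cons b l ih =>
    simp only [al, Bool.and_eq_true, ih, List.forall_mem_cons]
    exact and_congr (not_beq _ _) Iff.rfl

lemma pw_iff {l : List (ℕ × ℕ)} : pw l = true ↔ l.Pairwise fun a b => Nat.land a.1 b.2 ≠ 0 := by
  induction l with
  | nil => simp [pw]
  | cons a l ih => simp only [pw, Bool.and_eq_true, al_iff, ih, List.pairwise_cons]

/-- the list of the values -/
def lst {N m : ℕ} (α : Fin N → ZMod m) : List ℕ := List.ofFn fun i => (α i).val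

lemma val_mem_mult {m w : ℕ} [NeZero m] (hw : w ∣ m) {x : ZMod m} (hx : x ≠ 0)
    (h : ((m / w : ℕ) : ZMod m) * x = 0) : x.val ∈ mult m w := by
  rw [mem_mult]
  refine ⟨ZMod.val_lt x, fun h1 => hx ((ZMod.val_eq_zero x).1 h1), ?_⟩
  have hm : 0 < m := Nat.pos_of_ne_zero (NeZero.ne m)
  have h1 : ((m / w * x.val : ℕ) : ZMod m) = 0 := by
    push_cast
    rw [ZMod.natCast_zmod_val]
    exact h
  rw [ZMod.natCast_eq_zero_iff] at h1
  have h2 : m / w * w ∣ m / w * x.val := by
    rw [Nat.div_mul_cancel hw]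
    exact h1
  have h3 : 0 < m / w := Nat.div_pos (Nat.le_of_dvd hm hw) (Nat.pos_of_dvd_of_pos hw hm)
  exact Nat.mod_eq_zero_of_dvd ((Nat.mul_dvd_mul_iff_left h3).1 h2)

lemma lst_ok {N m : ℕ} [NeZero m] (hN : 3 ≤ N) {α : Fin N → ZMod m} (hα : Prim α) :
    okl m (lst α) = true := by
  rw [okl, Bool.and_eq_true, Nat.beq_eq, pwz_iff, lst, List.pairwise_ofFn]
  constructor
  · have h1 : (((List.ofFn fun i => (α i).val).sum : ℕ) : ZMod m) = 0 := by
      rw [List.sum_ofFn, Nat.cast_sum]
      have h2 : ∀ i, (((α i).val : ℕ) : ZMod m) = α i := fun i => ZMod.natCast_zmod_val _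
      simp only [h2]
      exact hα.1
    rw [ZMod.natCast_eq_zero_iff] at h1
    exact Nat.mod_eq_zero_of_dvd h1
  · intro i j hij h
    have h1 : (((α i).val + (α j).val : ℕ) : ZMod m) = 0 := by
      rw [ZMod.natCast_eq_zero_iff]
      exact Nat.dvd_of_mod_eq_zero h
    rw [Nat.cast_add, ZMod.natCast_zmod_val, ZMod.natCast_zmod_val] at h1
    refine hα.2 {i, j} (insert_nonempty _ _) ?_ (by rw [sum_pair hij.ne]; exact h1)
    intro h2
    have h3 := congrArg Finset.card h2
    rw [card_pair hij.ne, card_univ, Fintype.card_fin] at h3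
    omega

lemma code_inj {m a b c d : ℕ} (hm : 0 < m) (h : (a % m) * m + b % m =
    ((m - c % m) % m) * m + (m - d % m) % m) :
    ((a + c : ℕ) : ZMod m) = 0 ∧ ((b + d : ℕ) : ZMod m) = 0 := by
  have h1 : ∀ x y : ℕ, x % m = (m - y % m) % m → ((x + y : ℕ) : ZMod m) = 0 := by
    intro x y hxy
    have h2 : (((x % m : ℕ)) : ZMod m) = (((m - y % m) % m : ℕ) : ZMod m) := by rw [hxy]
    rw [ZMod.natCast_mod, ZMod.natCast_mod, Nat.cast_sub (Nat.mod_lt y hm).le,
      ZMod.natCast_self, ZMod.natCast_mod] at h2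
    push_cast
    rw [h2]
    ring
  have hb : b % m < m := Nat.mod_lt _ hm
  have hd : (m - d % m) % m < m := Nat.mod_lt _ hm
  have h2 : a % m = (m - c % m) % m := by
    have h3 : (a % m * m + b % m) / m = ((m - c % m) % m * m + (m - d % m) % m) / m := by rw [h]
    rw [Nat.mul_comm, Nat.mul_comm ((m - c % m) % m), Nat.mul_add_div hm, Nat.mul_add_div hm,
      Nat.div_eq_of_lt hb, Nat.div_eq_of_lt hd] at h3
    simpa using h3
  refine ⟨h1 a c h2, h1 b d ?_⟩
  rw [h2] at h
  exact Nat.add_left_cancel h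

/-- The check implies that all pairs of different characters are opposite. -/
theorem chk_sound {N m : ℕ} [NeZero m] (hN : 3 ≤ N) {w : Fin N → ℕ} (hw : ∀ i, w i ∣ m)
    (h : chk m (List.ofFn w) = true) {α β : Fin N → ZMod m} (hα : Prim α) (hβ : Prim β)
    (hα' : α ∈ wtSet m w) (hβ' : β ∈ wtSet m w) : α = β ∨ Opp α β := by
  classical
  by_cases hab : α = β
  · exact Or.inl hab
  right
  have hm : 0 < m := Nat.pos_of_ne_zero (NeZero.ne m)
  rw [chk, pw_iff, List.pairwise_map, List.length_ofFn] at h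
  set L := (enum m (List.ofFn w)).filter (okl m) with hL
  have hmem : ∀ γ : Fin N → ZMod m, Prim γ → γ ∈ wtSet m w → lst γ ∈ L := by
    intro γ h1 h2
    rw [hL, List.mem_filter]
    exact ⟨mem_enum _ _ fun i => val_mem_mult (hw i) (prim_ne_zero (by omega) h1 i) (h2 i),
      lst_ok hN h1⟩
  -- the symmetric relation
  set R : List ℕ → List ℕ → Prop := fun l l' => ∃ b ∈ asg3 N, ∃ c ∈ asg3 N,
    ((bsum 0 b l + bsum 0 c l' : ℕ) : ZMod m) = 0 ∧
    ((bsum 1 b l + bsum 1 c l' : ℕ) : ZMod m) = 0 with hR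
  have hRsym : Std.Symm R := by
    constructor
    rintro l l' ⟨b, hb, c, hc, h1, h2⟩
    exact ⟨c, hc, b, hb, by rw [add_comm]; exact h1, by rw [add_comm]; exact h2⟩
  have hpw : L.Pairwise R := by
    refine h.imp fun {l l'} h1 => ?_
    obtain ⟨c, h2, h3⟩ := common_of_land h1
    rw [List.mem_map] at h2 h3
    obtain ⟨b, hb, hb'⟩ := h2
    obtain ⟨b', hb1, hb1'⟩ := h3
    rw [← hb1', code, ncode] at hb'
    obtain ⟨h4, h5⟩ := code_inj hm hb'
    exact ⟨b, hb, b', hb1, h4, h5⟩
  have hne : lst α ≠ lst β := by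
    intro h1
    apply hab
    have h2 := List.ofFn_injective h1
    funext i
    exact ZMod.val_injective m (congrFun h2 i)
  obtain ⟨b, hb, c, hc, h1, h2⟩ := hpw.forall (hmem α hα hα') (hmem β hβ hβ') hne
  rw [asg3, List.mem_filter] at hb hc
  obtain ⟨b', rfl⟩ := asg_ofFn hb.1
  obtain ⟨c', rfl⟩ := asg_ofFn hc.1
  have hsurj : ∀ f : Fin N → Fin 3, (has 0 (List.ofFn fun i => (f i).val) &&
      has 1 (List.ofFn fun i => (f i).val) && has 2 (List.ofFn fun i => (f i).val)) = true →
      ∀ B, ∃ i, f i = B := by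
    intro f hf B
    simp only [Bool.and_eq_true, has_iff, List.mem_ofFn] at hf
    obtain ⟨⟨⟨i0, h0⟩, ⟨i1, h1⟩⟩, ⟨i2, h2⟩⟩ := hf
    fin_cases B
    · exact ⟨i0, Fin.ext h0⟩
    · exact ⟨i1, Fin.ext h1⟩
    · exact ⟨i2, Fin.ext h2⟩
  have hsum : ∀ (f : Fin N → Fin 3) (γ : Fin N → ZMod m) (B : Fin 3),
      ((bsum B.val (List.ofFn fun i => (f i).val) (lst γ) : ℕ) : ZMod m) =
        ∑ i with f i = B, γ i := by
    intro f γ B
    rw [lst, bsum_ofFn, Nat.cast_sum, sum_filter]
    refine sum_congr rfl fun i _ => ?_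
    by_cases h3 : f i = B
    · rw [if_pos (congrArg Fin.val h3), if_pos h3, ZMod.natCast_zmod_val]
    · rw [if_neg (fun h4 => h3 (Fin.ext h4)), if_neg h3, Nat.cast_zero]
  rw [Nat.cast_add] at h1 h2
  have e0 := hsum b' α 0
  have e0' := hsum c' β 0
  have e1 := hsum b' α 1
  have e1' := hsum c' β 1
  rw [Fin.val_zero] at e0 e0'
  rw [Fin.val_one] at e1 e1'
  rw [e0, e0'] at h1
  rw [e1, e1'] at h2
  refine ⟨b', c', ?_, hsurj b' hb.2, hsurj c' hc.2⟩
  have h3 : ∑ B, (∑ i with b' i = B, α i + ∑ i with c' i = B, β i) = 0 := by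
    rw [sum_add_distrib, sum_fiberwise, sum_fiberwise, hα.1, hβ.1, add_zero]
  rw [Fin.sum_univ_three, h1, h2, zero_add, zero_add] at h3
  intro B
  fin_cases B
  · exact h1
  · exact h2
  · exact h3

end Pool.Agent.U840.BL
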