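import Pool.Agent.U840.VS.Comb

/-!
# Characters with given values at some coordinates

Cliques of characters whose last `k` values are the same, and folding of the characters with the
last value `m / 2` to characters modulo `m / 2`.
-/

set_option autoImplicit false

namespace Pool.Agent.U840.BL

open Finset Pool.Agent.U840.VS

variable {N m : ℕ}

lemma ps_eq_of_tail {α β : Fin N → ZMod m} (hα : ∑ i, α i = 0) (hβ : ∑ i, β i = 0) {j : ℕ}
    (h : ∀ i : Fin N, j ≤ i.val → α i = β i) : ps α j = ps β j := by
  have h1 : ∀ γ : Fin N → ZMod m, ps γ j + ∑ i with ¬ i.val < j, γ i = ∑ i, γ i := fun γ =>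
    sum_filter_add_sum_filter_not _ _ _
  have h2 := h1 α
  have h3 := h1 β
  rw [hα] at h2
  rw [hβ] at h3
  have h4 : ∑ i with ¬ i.val < j, α i = ∑ i with ¬ i.val < j, β i :=
    sum_congr rfl fun i hi => h i (not_lt.1 (mem_filter.1 hi).2)
  rw [h4] at h2
  linear_combination h2 - h3

/-- Among more than `C(m - 1 - k, N - 1 - k)` characters with the same last `k` values two are equal
or opposite. -/
theorem exists_eq_fix [NeZero m] {r k : ℕ} (hN : 1 ≤ N) (hk : k ≤ N - 1)
    (hr : (m - 1 - k).choose (N - 1 - k) < r) (α : Fin r → Fin N → ZMod m) (hα : ∀ j, Prim (α j))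
    (hfix : ∀ j l i, N - k ≤ (i : Fin N).val → α j i = α l i) :
    ∃ j l, j ≠ l ∧ (α j = α l ∨ Opp (α j) (α l)) := by
  have hr0 : 0 < r := lt_of_le_of_lt (Nat.zero_le _) hr
  set j₀ : Fin r := ⟨0, hr0⟩ with hj₀
  set Φ : Finset (ZMod m) := (Icc (N - k) (N - 1)).image (ps (α j₀)) with hΦ
  have hsub : ∀ j, Φ ⊆ pset (α j) := by
    intro j x hx
    rw [hΦ, mem_image] at hx
    obtain ⟨i, hi, rfl⟩ := hx
    rw [mem_Icc] at hi
    rw [pset, mem_image]
    refine ⟨i, mem_Icc.2 ⟨by omega, hi.2⟩, ?_⟩
    exact ps_eq_of_tail (hα j).1 (hα j₀).1 fun l hl => hfix j j₀ l (by omega)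
  have hcard : Φ.card = k := by
    rw [hΦ, card_image_of_injOn, Nat.card_Icc]
    · omega
    · intro a ha b hb hab
      refine (hα j₀).injOn ?_ ?_ hab
      · rw [mem_coe, mem_Icc] at ha ⊢
        omega
      · rw [mem_coe, mem_Icc] at hb ⊢
        omega
  have hΦ0 : Φ ⊆ (univ : Finset (ZMod m)).erase 0 := by
    intro x hx
    exact (mem_powersetCard.1 (hα j₀).pset_mem).1 (hsub j₀ hx)
  have hc : (((univ : Finset (ZMod m)).erase 0) \ Φ).card = m - 1 - k := by
    rw [card_sdiff_of_subset hΦ0, card_erase_of_mem (mem_univ _), card_univ, ZMod.card, hcard]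
  have h1 : (powersetCard (N - 1 - k) (((univ : Finset (ZMod m)).erase 0) \ Φ)).card <
      (univ : Finset (Fin r)).card := by
    rw [card_powersetCard, hc, card_univ, Fintype.card_fin]
    exact hr
  obtain ⟨j, -, l, -, hjl, h2⟩ := exists_ne_map_eq_of_card_lt_of_maps_to h1
    (f := fun j => pset (α j) \ Φ) (by
      intro j _
      rw [mem_coe, mem_powersetCard]
      refine ⟨sdiff_subset_sdiff (mem_powersetCard.1 (hα j).pset_mem).1 subset_rfl, ?_⟩
      rw [card_sdiff_of_subset (hsub j), (hα j).card_pset, hcard])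
  refine ⟨j, l, hjl, ?_⟩
  have h3 : pset (α j) = pset (α l) := by
    have h4 : pset (α j) \ Φ = pset (α l) \ Φ := h2
    rw [← sdiff_union_of_subset (hsub j), h4, sdiff_union_of_subset (hsub l)]
  by_cases ho : Opp (α j) (α l)
  · exact Or.inr ho
  · exact Or.inl (eq_of_pset (hα j) (hα l) h3 ho)

/-! ### Folding -/

variable {M g : ℕ}

/-- the reduction modulo `g` of all values except the last one -/
def fold (g : ℕ) (α : Fin (M + 1) → ZMod (2 * g)) : Fin M → ZMod g := fun i =>
  ZMod.castHom (Dvd.intro_left 2 rfl) (ZMod g) (α i.castSucc)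

lemma cast_eq_zero (hg : 0 < g) {x : ZMod (2 * g)}
    (h : ZMod.castHom (Dvd.intro_left 2 rfl) (ZMod g) x = 0) : x = 0 ∨ x = (g : ZMod (2 * g)) := by
  have : NeZero (2 * g) := ⟨by omega⟩
  have h1 : ((x.val : ℕ) : ZMod g) = 0 := by
    rw [← h, ZMod.castHom_apply, ZMod.cast_eq_val]
  rw [ZMod.natCast_eq_zero_iff] at h1
  obtain ⟨c, hc⟩ := h1
  have h2 : x.val < 2 * g := ZMod.val_lt x
  have h3 : c < 2 := by
    by_contra hcon
    have : g * 2 ≤ g * c := Nat.mul_le_mul_left g (not_lt.1 hcon)
    omega
  have h4 : x = ((x.val : ℕ) : ZMod (2 * g)) := (ZMod.natCast_zmod_val x).symm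
  rw [hc] at h4
  interval_cases c
  · left
    rw [h4]
    simp
  · right
    rw [h4, mul_one]

lemma two_g : ((g : ZMod (2 * g)) + g) = 0 := by
  have h : ((2 * g : ℕ) : ZMod (2 * g)) = 0 := ZMod.natCast_self _
  rw [← h]
  push_cast
  ring

lemma cast_g : ZMod.castHom (Dvd.intro_left 2 rfl) (ZMod g) (g : ZMod (2 * g)) = 0 := by
  rw [map_natCast, ZMod.natCast_self]

lemma sum_castSucc (α : Fin (M + 1) → ZMod (2 * g)) (P : Fin M → Prop) [DecidablePred P] :
    ZMod.castHom (Dvd.intro_left 2 rfl) (ZMod g) (∑ i with P i, α i.castSucc) =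
      ∑ i with P i, fold g α i := by
  rw [map_sum]
  rfl

lemma fold_prim (hg : 0 < g) {α : Fin (M + 1) → ZMod (2 * g)} (hα : Prim α)
    (hl : α (Fin.last M) = g) : Prim (fold g α) := by
  constructor
  · have h1 := hα.1
    rw [Fin.sum_univ_castSucc, hl] at h1
    have h2 := congrArg (ZMod.castHom (Dvd.intro_left 2 rfl) (ZMod g)) h1
    rw [map_add, cast_g, add_zero, map_zero, map_sum] at h2
    exact h2
  · intro B hB hB' h
    have h1 : ZMod.castHom (Dvd.intro_left 2 rfl) (ZMod g) (∑ i ∈ B, α i.castSucc) = 0 := by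
      rw [map_sum]
      exact h
    rcases cast_eq_zero hg h1 with h2 | h2
    · refine hα.2 (B.map Fin.castSuccEmb) (by simpa using hB) ?_ (by rw [sum_map]; exact h2)
      intro h3
      have h4 : Fin.last M ∈ B.map Fin.castSuccEmb := by
        rw [h3]
        exact mem_univ _
      rw [mem_map] at h4
      obtain ⟨i, -, hi⟩ := h4
      exact absurd hi (Fin.castSucc_lt_last i).ne
    · have hnot : Fin.last M ∉ B.map Fin.castSuccEmb := by
        intro h4
        rw [mem_map] at h4
        obtain ⟨i, -, hi⟩ := h4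
        exact absurd hi (Fin.castSucc_lt_last i).ne
      refine hα.2 (insert (Fin.last M) (B.map Fin.castSuccEmb)) (insert_nonempty _ _) ?_ ?_
      · intro h3
        apply hB'
        rw [eq_univ_iff_forall] at h3 ⊢
        intro i
        have h4 := h3 i.castSucc
        rw [mem_insert, mem_map] at h4
        rcases h4 with h4 | ⟨j, hj, h4⟩
        · exact absurd h4 (Fin.castSucc_lt_last i).ne
        · have h5 : j = i := Fin.castSucc_injective _ h4
          rw [← h5]
          exact hj
      · rw [sum_insert hnot, hl, sum_map]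
        have h3 : ∑ x ∈ B, α (Fin.castSuccEmb x) = g := h2
        rw [h3, two_g]

/-- the sums over the blocks of an extended block decomposition -/
lemma sum_snoc (α : Fin (M + 1) → ZMod (2 * g)) (b : Fin M → Fin 3) (B₀ B : Fin 3) :
    ∑ i with (Fin.snoc b B₀ : Fin (M + 1) → Fin 3) i = B, α i =
      ∑ i with b i = B, α i.castSucc + if B₀ = B then α (Fin.last M) else 0 := by
  rw [sum_filter, Fin.sum_univ_castSucc, sum_filter]
  congr 1
  · refine sum_congr rfl fun i _ => ?_
    rw [Fin.snoc_castSucc]
  · rw [Fin.snoc_last]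

lemma fold_lift (hg : 0 < g) {α β : Fin (M + 1) → ZMod (2 * g)} (hα : ∑ i, α i = 0)
    (hβ : ∑ i, β i = 0) (hαl : α (Fin.last M) = g) (hβl : β (Fin.last M) = g)
    (h : fold g α = fold g β ∨ Opp (fold g α) (fold g β)) : α = β ∨ Opp α β := by
  classical
  have h2g := two_g (g := g)
  rw [Fin.sum_univ_castSucc, hαl] at hα
  rw [Fin.sum_univ_castSucc, hβl] at hβ
  rcases h with h | ⟨b, c, h1, h2, h3⟩
  · by_cases hab : α = β
    · exact Or.inl hab
    right
    obtain ⟨i, hi⟩ : ∃ i : Fin M, α i.castSucc ≠ β i.castSucc := by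
      by_contra hcon
      push Not at hcon
      apply hab
      funext i
      refine Fin.lastCases ?_ (fun i => hcon i) i
      rw [hαl, hβl]
    have hi' : α i.castSucc - β i.castSucc = g := by
      have h4 : ZMod.castHom (Dvd.intro_left 2 rfl) (ZMod g) (α i.castSucc - β i.castSucc) = 0 := by
        rw [map_sub, sub_eq_zero]
        exact congrFun h i
      rcases cast_eq_zero hg h4 with h5 | h5
      · exact absurd (sub_eq_zero.1 h5) hi
      · exact h5
    have hne : ∃ i' : Fin M, i' ≠ i := by
      by_contra hcon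
      push Not at hcon
      apply hi
      have h5 : ∀ γ : Fin (M + 1) → ZMod (2 * g), ∑ l : Fin M, γ l.castSucc = γ i.castSucc := by
        intro γ
        exact sum_eq_single i (fun l _ hl => absurd (hcon l) hl) (by simp)
      rw [h5] at hα hβ
      linear_combination hα - hβ
    have hA : ∀ γ : Fin (M + 1) → ZMod (2 * g), ∀ A B : Fin 3, A ≠ B →
        ∑ l with (if l = i then A else B) = A, γ (Fin.castSucc l) = γ i.castSucc ∧
        ∑ l with (if l = i then A else B) = B, γ (Fin.castSucc l) =
          ∑ l, γ (Fin.castSucc l) - γ i.castSucc := by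
      intro γ A B hAB
      have e1 : (univ.filter fun l : Fin M => (if l = i then A else B) = A) = {i} := by
        ext l
        rw [mem_filter, mem_singleton]
        constructor
        · rintro ⟨-, h5⟩
          by_contra h6
          rw [if_neg h6] at h5
          exact hAB h5.symm
        · rintro rfl
          exact ⟨mem_univ _, if_pos rfl⟩
      have e2 : (univ.filter fun l : Fin M => (if l = i then A else B) = B) = univ.erase i := by
        ext l
        rw [mem_filter, mem_erase]
        constructor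
        · rintro ⟨-, h5⟩
          refine ⟨?_, mem_univ _⟩
          rintro rfl
          rw [if_pos rfl] at h5
          exact hAB h5
        · rintro ⟨h5, -⟩
          exact ⟨mem_univ _, if_neg h5⟩
      constructor
      · rw [e1, sum_singleton]
      · rw [e2, sum_erase_eq_sub (mem_univ i)]
    have hC : ∀ γ : Fin (M + 1) → ZMod (2 * g), ∀ A B C : Fin 3, A ≠ C → B ≠ C →
        ∑ l with (if l = i then A else B) = C, γ (Fin.castSucc l) = 0 := by
      intro γ A B C hAC hBC
      rw [filter_false_of_mem, sum_empty]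
      intro l _
      split_ifs
      · exact hAC
      · exact hBC
    obtain ⟨i', hi'ne⟩ := hne
    refine ⟨Fin.snoc (fun l => if l = i then 0 else 1) 2, Fin.snoc (fun l => if l = i then 1 else 0) 2,
      ?_, ?_, ?_⟩
    · intro B
      rw [sum_snoc, sum_snoc, hαl, hβl]
      fin_cases B
      · change ∑ l with (if l = i then (0 : Fin 3) else 1) = 0, α (Fin.castSucc l) +
          (if (2 : Fin 3) = 0 then (g : ZMod (2 * g)) else 0) +
          (∑ l with (if l = i then (1 : Fin 3) else 0) = 0, β (Fin.castSucc l) +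
          if (2 : Fin 3) = 0 then (g : ZMod (2 * g)) else 0) = 0
        rw [(hA α 0 1 (by decide)).1, (hA β 1 0 (by decide)).2, if_neg (by decide)]
        linear_combination hi' + hβ
      · change ∑ l with (if l = i then (0 : Fin 3) else 1) = 1, α (Fin.castSucc l) +
          (if (2 : Fin 3) = 1 then (g : ZMod (2 * g)) else 0) +
          (∑ l with (if l = i then (1 : Fin 3) else 0) = 1, β (Fin.castSucc l) +
          if (2 : Fin 3) = 1 then (g : ZMod (2 * g)) else 0) = 0
        rw [(hA α 0 1 (by decide)).2, (hA β 1 0 (by decide)).1, if_neg (by decide)]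
        linear_combination -hi' + hα - h2g
      · change ∑ l with (if l = i then (0 : Fin 3) else 1) = 2, α (Fin.castSucc l) +
          (if (2 : Fin 3) = 2 then (g : ZMod (2 * g)) else 0) +
          (∑ l with (if l = i then (1 : Fin 3) else 0) = 2, β (Fin.castSucc l) +
          if (2 : Fin 3) = 2 then (g : ZMod (2 * g)) else 0) = 0
        rw [hC α 0 1 2 (by decide) (by decide), hC β 1 0 2 (by decide) (by decide),
          if_pos rfl]
        linear_combination h2g
    · intro B
      fin_cases B
      · exact ⟨i.castSucc, by rw [Fin.snoc_castSucc, if_pos rfl]; rfl⟩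
      · exact ⟨i'.castSucc, by rw [Fin.snoc_castSucc, if_neg hi'ne]; rfl⟩
      · exact ⟨Fin.last M, by rw [Fin.snoc_last]; rfl⟩
    · intro B
      fin_cases B
      · exact ⟨i'.castSucc, by rw [Fin.snoc_castSucc, if_neg hi'ne]; rfl⟩
      · exact ⟨i.castSucc, by rw [Fin.snoc_castSucc, if_pos rfl]; rfl⟩
      · exact ⟨Fin.last M, by rw [Fin.snoc_last]; rfl⟩
  · right
    have h4 : ∀ B, (∑ i with b i = B, α i.castSucc) + (∑ i with c i = B, β i.castSucc) = 0 ∨
        (∑ i with b i = B, α i.castSucc) + (∑ i with c i = B, β i.castSucc) = g := by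
      intro B
      refine cast_eq_zero hg ?_
      rw [map_add, sum_castSucc, sum_castSucc]
      exact h1 B
    have h5 : ∑ B, ((∑ i with b i = B, α i.castSucc) + (∑ i with c i = B, β i.castSucc)) = 0 := by
      rw [sum_add_distrib, sum_fiberwise, sum_fiberwise]
      linear_combination hα + hβ - h2g
    rw [Fin.sum_univ_three] at h5
    have key : ∃ B₁ B₂ : Fin 3, ∀ B, (∑ i with b i = B, α i.castSucc) +
        (if B₁ = B then (g : ZMod (2 * g)) else 0) + ((∑ i with c i = B, β i.castSucc) +
        if B₂ = B then (g : ZMod (2 * g)) else 0) = 0 := by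
      have gen : ∀ x : Fin 3 → ZMod (2 * g), (∀ B, x B = 0 ∨ x B = g) → x 0 + x 1 + x 2 = 0 →
          ∃ B₁ B₂ : Fin 3, ∀ B, x B + (if B₁ = B then (g : ZMod (2 * g)) else 0) +
            (if B₂ = B then (g : ZMod (2 * g)) else 0) = 0 := by
        intro x hx hs
        have hg0 : (g : ZMod (2 * g)) ≠ 0 := by
          intro h6
          rw [ZMod.natCast_eq_zero_iff] at h6
          have := Nat.le_of_dvd hg h6
          omega
        rcases hx 0 with h0 | h0 <;> rcases hx 1 with h1 | h1 <;> rcases hx 2 with h2 | h2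
        · refine ⟨0, 0, fun B => ?_⟩
          fin_cases B <;> simp [h0, h1, h2, h2g]
        · rw [h0, h1, h2] at hs
          exact absurd (by linear_combination hs) hg0
        · rw [h0, h1, h2] at hs
          exact absurd (by linear_combination hs) hg0
        · refine ⟨1, 2, fun B => ?_⟩
          fin_cases B <;> simp [h0, h1, h2, h2g]
        · rw [h0, h1, h2] at hs
          exact absurd (by linear_combination hs) hg0
        · refine ⟨0, 2, fun B => ?_⟩
          fin_cases B <;> simp [h0, h1, h2, h2g]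
        · refine ⟨0, 1, fun B => ?_⟩
          fin_cases B <;> simp [h0, h1, h2, h2g]
        · rw [h0, h1, h2] at hs
          exact absurd (by linear_combination hs - h2g) hg0
      obtain ⟨B₁, B₂, h6⟩ := gen (fun B => (∑ i with b i = B, α i.castSucc) +
        (∑ i with c i = B, β i.castSucc)) h4 h5
      refine ⟨B₁, B₂, fun B => ?_⟩
      have h7 := h6 B
      linear_combination h7
    obtain ⟨B₁, B₂, h6⟩ := key
    refine ⟨Fin.snoc b B₁, Fin.snoc c B₂, ?_, ?_, ?_⟩
    · intro B
      rw [sum_snoc, sum_snoc, hαl, hβl]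
      exact h6 B
    · intro B
      obtain ⟨i, hi⟩ := h2 B
      exact ⟨i.castSucc, by rw [Fin.snoc_castSucc]; exact hi⟩
    · intro B
      obtain ⟨i, hi⟩ := h3 B
      exact ⟨i.castSucc, by rw [Fin.snoc_castSucc]; exact hi⟩

lemma cast_of_two (hg : 0 < g) {x : ZMod (2 * g)} (h : 2 * x = 0) :
    ZMod.castHom (Dvd.intro_left 2 rfl) (ZMod g) x = 0 := by
  have : NeZero (2 * g) := ⟨by omega⟩
  have h1 : ((2 * x.val : ℕ) : ZMod (2 * g)) = 0 := by
    push_cast
    rw [ZMod.natCast_zmod_val, h]
  rw [ZMod.natCast_eq_zero_iff] at h1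
  rw [ZMod.castHom_apply, ZMod.cast_eq_val, ZMod.natCast_eq_zero_iff]
  exact (Nat.mul_dvd_mul_iff_left (by norm_num)).1 h1

/-- Among more than `C(m₀ - 1, N₀ - 1)` characters such that the values at the last `s` coordinates
are multiples of `m / 2 ^ s`, ..., `m / 4`, `m / 2` two are equal or opposite. -/
theorem exists_eq_tower {N₀ m₀ r : ℕ} (hN₀ : 1 ≤ N₀) (hm₀ : 0 < m₀)
    (hr : (m₀ - 1).choose (N₀ - 1) < r) (s : ℕ) : ∀ {N m : ℕ}, N = N₀ + s → m = 2 ^ s * m₀ →
    ∀ α : Fin r → Fin N → ZMod m, (∀ j, Prim (α j)) →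
      (∀ j i, N₀ ≤ (i : Fin N).val → (2 : ZMod m) ^ (N - i.val) * α j i = 0) →
      ∃ j l, j ≠ l ∧ (α j = α l ∨ Opp (α j) (α l)) := by
  induction s with
  | zero =>
    intro N m hN hm α hα _
    rw [add_zero] at hN
    rw [pow_zero, one_mul] at hm
    subst hN hm
    have : NeZero m := ⟨by omega⟩
    exact exists_eq hr α hα
  | succ s ih =>
    intro N m hN hm α hα hw
    obtain rfl : N = (N₀ + s) + 1 := by omega
    have hm' : m = 2 * (2 ^ s * m₀) := by
      rw [hm]
      ring
    obtain ⟨g, hg⟩ : ∃ g, g = 2 ^ s * m₀ := ⟨_, rfl⟩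
    rw [← hg] at hm'
    subst hm'
    have hg0 : 0 < g := by
      rw [hg]
      positivity
    have hlast : ∀ j, α j (Fin.last (N₀ + s)) = g := by
      intro j
      have h1 := hw j (Fin.last (N₀ + s)) (by rw [Fin.val_last]; omega)
      rw [Fin.val_last, Nat.add_sub_cancel_left, pow_one] at h1
      rcases cast_eq_zero hg0 (cast_of_two hg0 h1) with h2 | h2
      · exfalso
        refine (hα j).2 {Fin.last (N₀ + s)} (singleton_nonempty _) ?_ (by rw [sum_singleton, h2])
        intro h3
        have h4 := congrArg Finset.card h3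
        rw [card_singleton, card_univ, Fintype.card_fin] at h4
        omega
      · exact h2
    obtain ⟨j, l, hjl, h⟩ := ih rfl hg (fun j => fold g (α j)) (fun j => fold_prim hg0 (hα j) (hlast j))
      (by
        intro j i hi
        have h1 := hw j i.castSucc (by rw [Fin.val_castSucc]; exact hi)
        rw [Fin.val_castSucc, show N₀ + s + 1 - i.val = (N₀ + s - i.val) + 1 by omega, pow_succ',
          mul_assoc] at h1
        have h2 := cast_of_two hg0 h1
        rw [map_mul, map_pow, map_ofNat] at h2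
        exact h2)
    exact ⟨j, l, hjl, fold_lift hg0 (hα j).1 (hα l).1 (hlast j) (hlast l) h⟩

end Pool.Agent.U840.BL
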