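import Pool.Agent.U840.VS.Main
import Pool.Agent.U840.BL.Comb

/-!
# Components of zero-cycles on powers of Fermat hypersurfaces
-/

set_option autoImplicit false

namespace Pool.Agent.U840.BL

open MvPolynomial Finset Pool.Agent.T2H37.FK Pool.Agent.T2H37.PR Pool.Agent.U840.VS

variable {𝕜 : Type*} [Field 𝕜] [IsAlgClosed 𝕜] [CharZero 𝕜] {N m r : ℕ} [NeZero m]

lemma mk_smulP {c : Fin r → 𝕜} (hc : ∀ k, c k ≠ 0) {v w : ∀ _ : Fin r, Fin N → 𝕜}
    (hv : OnP (N := fun _ : Fin r => N) m v) (hw : OnP (N := fun _ : Fin r => N) m w)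
    (h : ∀ k, w k = c k • v k) :
    mkP (N := fun _ : Fin r => N) w hw = mkP (N := fun _ : Fin r => N) v hv := by
  funext k
  apply Subtype.ext
  exact (Projectivization.mk_eq_mk_iff' 𝕜 _ _ _ _).2 ⟨c k, (h k).symm⟩

lemma extP_smulP (φ : Pts 𝕜 (fun _ : Fin r => N) m → 𝕜) {c : Fin r → 𝕜} (hc : ∀ k, c k ≠ 0)
    {v w : ∀ _ : Fin r, Fin N → 𝕜} (hv : OnP (N := fun _ : Fin r => N) m v)
    (hw : OnP (N := fun _ : Fin r => N) m w) (h : ∀ k, w k = c k • v k) :
    extP φ w = extP φ v := by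
  rw [extP_of φ hv, extP_of φ hw, mk_smulP hc hv hw h]

lemma compP_smulP (φ : Pts 𝕜 (fun _ : Fin r => N) m → 𝕜) (α : Fin r → Fin N → ZMod m)
    {c : Fin r → 𝕜} (hc : ∀ k, c k ≠ 0) {v w : ∀ _ : Fin r, Fin N → 𝕜}
    (hv : OnP (N := fun _ : Fin r => N) m v)
    (hw : OnP (N := fun _ : Fin r => N) m w) (h : ∀ k, w k = c k • v k) :
    Pool.Agent.T2H37.PR.compP (N := fun _ : Fin r => N) (extP φ) α w =
      Pool.Agent.T2H37.PR.compP (N := fun _ : Fin r => N) (extP φ) α v := by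
  rw [Pool.Agent.T2H37.PR.compP, Pool.Agent.T2H37.PR.compP]
  refine sum_congr rfl fun g _ => ?_
  congr 1
  refine extP_smulP φ hc (onP_dg g hv) (onP_dg g hw) fun k => ?_
  funext i
  simp only [dgP, dg, h k, Pi.smul_apply, smul_eq_mul]
  ring

/-- the component of a function on the points -/
noncomputable def cmp (φ : Pts 𝕜 (fun _ : Fin r => N) m → 𝕜) (α : Fin r → Fin N → ZMod m)
    (x : Pts 𝕜 (fun _ : Fin r => N) m) : 𝕜 :=
  Pool.Agent.T2H37.PR.compP (N := fun _ : Fin r => N) (extP φ) α fun k => (x k).1.rep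

lemma cmp_mk (φ : Pts 𝕜 (fun _ : Fin r => N) m → 𝕜) (α : Fin r → Fin N → ZMod m)
    {v : ∀ _ : Fin r, Fin N → 𝕜} (hv : OnP (N := fun _ : Fin r => N) m v) :
    cmp φ α (mkP (N := fun _ : Fin r => N) v hv) =
      Pool.Agent.T2H37.PR.compP (N := fun _ : Fin r => N) (extP φ) α v := by
  have h1 : ∀ k, ∃ c : 𝕜ˣ, c • v k = (mkP (N := fun _ : Fin r => N) v hv k).1.rep := fun k =>
    Projectivization.exists_smul_eq_mk_rep 𝕜 (v k) (hv k).1
  choose c hc using h1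
  exact compP_smulP φ α (c := fun k => (c k : 𝕜)) (fun k => (c k).ne_zero) hv (onP_rep _)
    fun k => (hc k).symm

/-- the automorphism given by roots of unity and a permutation of the factors -/
noncomputable def mv (g : Fin r → Fin N → ZMod m) (σ : Equiv.Perm (Fin r))
    (x : Pts 𝕜 (fun _ : Fin r => N) m) : Pts 𝕜 (fun _ : Fin r => N) m :=
  mkP (N := fun _ : Fin r => N) (dgP (N := fun _ : Fin r => N) g fun j => (x (σ j)).1.rep)
    (onP_dg (N := fun _ : Fin r => N) g fun j => onX_rep (x (σ j)))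

lemma cmp_mv (φ : Pts 𝕜 (fun _ : Fin r => N) m → 𝕜) (α g : Fin r → Fin N → ZMod m)
    (σ : Equiv.Perm (Fin r)) (x : Pts 𝕜 (fun _ : Fin r => N) m) :
    cmp φ α (mv g σ x) =
      e 𝕜 (prP (N := fun _ : Fin r => N) α g) * cmp φ α (fun j => x (σ j)) := by
  rw [mv, cmp_mk, compP_dg]
  rfl

lemma mv_mv (g g' : Fin r → Fin N → ZMod m) (σ σ' : Equiv.Perm (Fin r))
    (hσ : ∀ j, σ' (σ j) = j) (hg : ∀ j, g j + g' (σ j) = 0)
    (x : Pts 𝕜 (fun _ : Fin r => N) m) : mv g σ (mv g' σ' x) = x := by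
  have h1 : ∀ k, ∃ c : 𝕜ˣ, c • dg (g' k) ((x (σ' k)).1.rep) = (mv g' σ' x k).1.rep := fun k =>
    Projectivization.exists_smul_eq_mk_rep 𝕜 _ _
  choose c hc using h1
  have h2 : mv g σ (mv g' σ' x) = mkP (N := fun _ : Fin r => N) (fun k => (x k).1.rep)
      (onP_rep x) := by
    rw [mv]
    refine mk_smulP (c := fun k => (c (σ k) : 𝕜)) (fun k => (c (σ k)).ne_zero) _ _ fun k => ?_
    change dg (g k) (mv g' σ' x (σ k)).1.rep = _
    rw [← hc, hσ]
    funext i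
    have h3 : e 𝕜 (g k i) * e 𝕜 (g' (σ k) i) = 1 := by
      rw [← e_add]
      have h4 := congrFun (hg k) i
      rw [Pi.add_apply, Pi.zero_apply] at h4
      rw [h4, e_zero]
    simp only [dg, Pi.smul_apply, Units.smul_def, smul_eq_mul]
    linear_combination ((c (σ k) : 𝕜) * (x k).1.rep i) * h3
  rw [h2]
  funext k
  apply Subtype.ext
  exact (x k).1.mk_rep

/-- the automorphism as a bijection -/
noncomputable def mvE (g : Fin r → Fin N → ZMod m) (σ : Equiv.Perm (Fin r)) :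
    Pts 𝕜 (fun _ : Fin r => N) m ≃ Pts 𝕜 (fun _ : Fin r => N) m where
  toFun := mv g σ
  invFun := mv (fun j => -g (σ.symm j)) σ.symm
  left_inv x := mv_mv _ _ _ _ (fun j => by simp) (fun j => by simp) x
  right_inv x := mv_mv _ _ _ _ (fun j => by simp) (fun j => by simp) x

/-- the component of a functional -/
noncomputable def LL (φ : Pts 𝕜 (fun _ : Fin r => N) m → 𝕜) (α : Fin r → Fin N → ZMod m)
    (z : Pts 𝕜 (fun _ : Fin r => N) m →₀ ℤ) : 𝕜 :=
  z.sum fun x c => (c : 𝕜) * cmp φ α x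

lemma LL_zero_of {φ : Pts 𝕜 (fun _ : Fin r => N) m → 𝕜} {α : Fin r → Fin N → ZMod m}
    (h : ∀ x, cmp φ α x = 0) (z : Pts 𝕜 (fun _ : Fin r => N) m →₀ ℤ) : LL φ α z = 0 :=
  sum_eq_zero fun x _ => by simp only [h, mul_zero]

lemma sum_LL (ψ : (Pts 𝕜 (fun _ : Fin r => N) m →₀ ℤ) →+ 𝕜)
    (z : Pts 𝕜 (fun _ : Fin r => N) m →₀ ℤ) :
    ∑ α : Fin r → Fin N → ZMod m, LL (fun x => ψ (Finsupp.single x 1)) α z =
      ((Fintype.card (∀ k, Fin ((fun _ : Fin r => N) k) → ZMod m) : ℕ) : 𝕜) * ψ z := by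
  have h1 : ψ z = z.sum fun x c => (c : 𝕜) * ψ (Finsupp.single x 1) := by
    conv_lhs => rw [← Finsupp.sum_single z]
    rw [Finsupp.sum, map_sum, Finsupp.sum]
    refine sum_congr rfl fun x _ => ?_
    have h4 : (Finsupp.single x (z x) : Pts 𝕜 (fun _ : Fin r => N) m →₀ ℤ) =
        z x • Finsupp.single x 1 := by
      rw [Finsupp.smul_single, smul_eq_mul, mul_one]
    rw [h4, map_zsmul, zsmul_eq_mul]
  rw [h1]
  simp only [LL, Finsupp.sum]
  rw [sum_comm, mul_sum]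
  refine sum_congr rfl fun x _ => ?_
  rw [← mul_sum]
  have h2 := sum_compP (N := fun _ : Fin r => N) (m := m)
    (extP fun x : Pts 𝕜 (fun _ : Fin r => N) m => ψ (Finsupp.single x 1)) fun k => (x k).1.rep
  have h3 : mkP (N := fun _ : Fin r => N) (fun k => (x k).1.rep) (onP_rep x) = x := by
    funext k
    apply Subtype.ext
    exact (x k).1.mk_rep
  rw [extP_of _ (onP_rep x), h3] at h2
  have h5 : ∑ α : Fin r → Fin N → ZMod m, cmp (fun x => ψ (Finsupp.single x 1)) α x =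
      ((Fintype.card (∀ k, Fin ((fun _ : Fin r => N) k) → ZMod m) : ℕ) : 𝕜) *
        ψ (Finsupp.single x 1) := h2
  rw [h5]
  ring

/-- A zero-cycle all of whose components vanish is torsion. -/
theorem torsion_of_LL (z : Pts 𝕜 (fun _ : Fin r => N) m →₀ ℤ)
    (h : ∀ ψ : (Pts 𝕜 (fun _ : Fin r => N) m →₀ ℤ) →+ 𝕜,
      (∀ w ∈ RatEquivZero 𝕜 (fun _ : Fin r => N) m, ψ w = 0) →
      ∀ α, LL (fun x => ψ (Finsupp.single x 1)) α z = 0) :
    ∃ j : ℕ, 0 < j ∧ j • z ∈ RatEquivZero 𝕜 (fun _ : Fin r => N) m := by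
  refine torsion_of' _ fun ψ hψ0 => ?_
  have h1 := sum_LL ψ z
  rw [sum_eq_zero fun α _ => h ψ hψ0 α] at h1
  exact (mul_eq_zero.1 h1.symm).resolve_left
    (card_ne_zeroP (𝕜 := 𝕜) (N := fun _ : Fin r => N) (m := m))

lemma LL_mv {φ : Pts 𝕜 (fun _ : Fin r => N) m → 𝕜} {α g : Fin r → Fin N → ZMod m}
    {σ : Equiv.Perm (Fin r)} {t : ℤ} (ht : t * t = 1) {z : Pts 𝕜 (fun _ : Fin r => N) m →₀ ℤ}
    (hz : ∀ x, z (mv g σ x) = t * z x) :
    LL φ α z = t * (e 𝕜 (prP (N := fun _ : Fin r => N) α g) *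
      z.sum fun x c => (c : 𝕜) * cmp φ α fun j => x (σ j)) := by
  have h1 : z = t • Finsupp.equivMapDomain (mvE g σ) z := by
    ext y
    rw [Finsupp.smul_apply, Finsupp.equivMapDomain_apply, smul_eq_mul]
    have h2 := hz ((mvE (𝕜 := 𝕜) g σ).symm y)
    have h3 : mv g σ ((mvE (𝕜 := 𝕜) g σ).symm y) = y := (mvE (𝕜 := 𝕜) g σ).apply_symm_apply y
    rw [h3] at h2
    exact h2
  have ht0 : t ≠ 0 := by
    rintro rfl
    simp at ht
  conv_lhs => rw [h1]
  rw [LL, Finsupp.sum_smul_index' (fun x => by simp), Finsupp.sum_equivMapDomain]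
  simp only [Finsupp.sum, mul_sum]
  refine sum_congr rfl fun x _ => ?_
  have h2 : mvE g σ x = mv g σ x := rfl
  rw [h2, cmp_mv, smul_eq_mul]
  push_cast
  ring

/-- A component of an invariant cycle vanishes if the character is not trivial. -/
lemma LL_zero_of_diag {φ : Pts 𝕜 (fun _ : Fin r => N) m → 𝕜} {α g : Fin r → Fin N → ZMod m}
    {z : Pts 𝕜 (fun _ : Fin r => N) m →₀ ℤ} (hz : ∀ x, z (mv g 1 x) = z x)
    (h : prP (N := fun _ : Fin r => N) α g ≠ 0) : LL φ α z = 0 := by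
  have h1 := LL_mv (φ := φ) (α := α) (g := g) (σ := 1) (t := 1) (by norm_num) (z := z)
    (fun x => by rw [hz, one_mul])
  have h2 : (z.sum fun x c => (c : 𝕜) * cmp φ α fun j => x ((1 : Equiv.Perm (Fin r)) j)) =
      LL φ α z := rfl
  rw [h2, Int.cast_one, one_mul] at h1
  have h3 : (e 𝕜 (prP (N := fun _ : Fin r => N) α g) - 1) * LL φ α z = 0 := by
    linear_combination -h1
  refine (mul_eq_zero.1 h3).resolve_left (sub_ne_zero.2 fun h5 => h ?_)
  rw [← e_zero (𝕜 := 𝕜) (m := m)] at h5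
  exact e_inj h5

/-- A component with two equal characters vanishes if the exchange of the two factors acts by the
wrong sign. -/
lemma LL_zero_of_exch (hN : 2 ≤ N) {φ : Pts 𝕜 (fun _ : Fin r => N) m → 𝕜}
    (hφ : GoodP (N := fun _ : Fin r => N) m (extP φ)) {α g : Fin r → Fin N → ZMod m}
    {k l : Fin r} (hkl : k ≠ l) (h : α k = α l) (hα : ∀ i, α k i ≠ 0)
    {t : ℤ} (ht : t * t = 1) {z : Pts 𝕜 (fun _ : Fin r => N) m →₀ ℤ}
    (hz : ∀ x, z (mv g (Equiv.swap k l) x) = t * z x)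
    (hs : (t : 𝕜) * e 𝕜 (prP (N := fun _ : Fin r => N) α g) * (-1) ^ N = -1) : LL φ α z = 0 := by
  have h1 := LL_mv (φ := φ) (α := α) (g := g) (σ := Equiv.swap k l) ht hz
  have h2 : (z.sum fun x c => (c : 𝕜) * cmp φ α fun j => x (Equiv.swap k l j)) =
      (-1) ^ N * LL φ α z := by
    rw [LL, Finsupp.sum, Finsupp.sum, mul_sum]
    refine sum_congr rfl fun x _ => ?_
    have h3 : cmp φ α (fun j => x (Equiv.swap k l j)) = (-1) ^ N * cmp φ α x :=
      exch_swap hN hφ hkl h hα (onP_rep x)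
    rw [h3]
    ring
  rw [h2] at h1
  have h3 : (2 : 𝕜) * LL φ α z = 0 := by
    linear_combination h1 + LL φ α z * hs
  exact (mul_eq_zero.1 h3).resolve_left two_ne_zero

/-- The component of the trivial character of a cycle of degree zero vanishes. -/
lemma LL_zero_zero (hN : 2 ≤ N) {φ : Pts 𝕜 (fun _ : Fin r => N) m → 𝕜}
    (hφ : GoodP (N := fun _ : Fin r => N) m (extP φ))
    {z : Pts 𝕜 (fun _ : Fin r => N) m →₀ ℤ} (hz : (z.sum fun _ c => c) = 0) : LL φ 0 z = 0 := by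
  by_cases hz0 : z = 0
  · rw [hz0, LL, Finsupp.sum_zero_index]
  obtain ⟨x₀, -⟩ := Finsupp.support_nonempty_iff.2 hz0
  have h1 : ∀ x, cmp φ 0 x = cmp φ 0 x₀ := fun x =>
    hφ.comp_zero (N := fun _ : Fin r => N) (fun _ => hN) (onP_rep x) (onP_rep x₀)
  rw [LL, Finsupp.sum]
  have h2 : ∑ x ∈ z.support, (z x : 𝕜) * cmp φ 0 x = (∑ x ∈ z.support, (z x : 𝕜)) * cmp φ 0 x₀ := by
    rw [sum_mul]
    exact sum_congr rfl fun x _ => by rw [h1]
  rw [h2, ← Int.cast_sum]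
  have h3 : ∑ x ∈ z.support, z x = 0 := hz
  rw [h3, Int.cast_zero, zero_mul]

/-- A component vanishes unless all characters are primitive. -/
lemma prim_of_ne {φ : Pts 𝕜 (fun _ : Fin r => N) m → 𝕜}
    (hφ : GoodP (N := fun _ : Fin r => N) m (extP φ)) {α : Fin r → Fin N → ZMod m}
    (h0 : ∀ k, α k ≠ 0) {x : Pts 𝕜 (fun _ : Fin r => N) m} (hne : cmp φ α x ≠ 0) (k : Fin r) :
    Prim (α k) := by
  constructor
  · by_contra h
    exact hne (hφ.comp_sum_ne (k := k) h (onP_rep x))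
  · intro B hB hB' h
    exact hne (hφ.comp_B_zero (k := k) hB hB' (h0 k) h (onP_rep x))

omit [NeZero m] in
lemma prim_ne_zero (hN : 2 ≤ N) {α : Fin N → ZMod m} (hα : Prim α) (i : Fin N) : α i ≠ 0 := by
  intro h
  refine hα.2 {i} (singleton_nonempty i) ?_ (by rw [sum_singleton]; exact h)
  intro h1
  have h2 := congrArg Finset.card h1
  rw [card_singleton, card_univ, Fintype.card_fin] at h2
  omega

/-- A component vanishes if two characters are opposite. -/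
lemma cmp_zero_of_opp (hN : 2 ≤ N) {φ : Pts 𝕜 (fun _ : Fin r => N) m → 𝕜}
    (hφ : GoodP (N := fun _ : Fin r => N) m (extP φ)) {α : Fin r → Fin N → ZMod m}
    (hP : ∀ k, Prim (α k)) {k l : Fin r} (hkl : k ≠ l) (h : Opp (α k) (α l))
    (x : Pts 𝕜 (fun _ : Fin r => N) m) : cmp φ α x = 0 := by
  obtain ⟨b, c, h1, h2, h3⟩ := h
  have hb : ∃ d : ∀ _ : Fin r, Fin N → Fin 3, d k = b ∧ d l = c := by
    refine ⟨Function.update (fun _ => c) k b, ?_, ?_⟩
    · rw [Function.update_self]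
    · rw [Function.update_of_ne hkl.symm]
  obtain ⟨d, hd1, hd2⟩ := hb
  refine hφ.comp_three (N := fun _ : Fin r => N) hkl (b := d) (fun k => (hP k).1) ?_ ?_ ?_
    (prim_ne_zero hN (hP k)) (prim_ne_zero hN (hP l)) (onP_rep x)
  · intro B
    rw [hd1, hd2]
    exact h1 B
  · rw [hd1]
    exact h2
  · rw [hd2]
    exact h3

end Pool.Agent.U840.BL
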