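import Pool.Agent.U840.BL.Sym

/-!
# The push-forward of zero-cycles
-/

set_option autoImplicit false

namespace Pool.Agent.U840.BL

open MvPolynomial Finset Pool.Agent.T2H37.FK Pool.Agent.T2H37.PR Pool.Agent.U840.VS

/-- The projection `X ^ (q + 1) → X ^ q` that forgets the `k`-th factor. -/
def forget {𝕜 : Type*} [Field 𝕜] {N m q : ℕ} (k : Fin (q + 1))
    (x : Pts 𝕜 (fun _ : Fin (q + 1) => N) m) : Pts 𝕜 (fun _ : Fin q => N) m :=
  fun j => x (k.succAbove j)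

variable {𝕜 : Type*} [Field 𝕜] {N m q : ℕ}

/-- the inclusion `X ^ q → X ^ (q + 1)` given by a point -/
def ins (k : Fin (q + 1)) (p : Fermat 𝕜 N m)
    (y : Pts 𝕜 (fun _ : Fin q => N) m) : Pts 𝕜 (fun _ : Fin (q + 1) => N) m :=
  fun j => Fin.insertNth (α := fun _ => Fermat 𝕜 N m) k p y j

lemma ins_same (k : Fin (q + 1)) (p : Fermat 𝕜 N m) (y : Pts 𝕜 (fun _ : Fin q => N) m) :
    ins k p y k = p := Fin.insertNth_apply_same (α := fun _ => Fermat 𝕜 N m) k p y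

lemma ins_above (k : Fin (q + 1)) (p : Fermat 𝕜 N m) (y : Pts 𝕜 (fun _ : Fin q => N) m)
    (i : Fin q) : ins k p y (k.succAbove i) = y i :=
  Fin.insertNth_apply_succAbove (α := fun _ => Fermat 𝕜 N m) k p y i

/-- the map on Chow forms -/
noncomputable def insHom (k : Fin (q + 1)) (v : Fin N → 𝕜) :
    MvPolynomial (∀ _ : Fin q, Fin N) 𝕜 →ₐ[𝕜] MvPolynomial (∀ _ : Fin (q + 1), Fin N) 𝕜 :=
  aeval fun l => ∑ i, C (v i) * X (Fin.insertNth (α := fun _ => Fin N) k i l)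

lemma insHom_segre (k : Fin (q + 1)) (v : Fin N → 𝕜) (w : ∀ _ : Fin q, Fin N → 𝕜)
    (u : ∀ _ : Fin (q + 1), Fin N → 𝕜) (hk : u k = v) (hj : ∀ j, u (k.succAbove j) = w j) :
    insHom k v (segre (N := fun _ : Fin q => N) w) = segre (N := fun _ : Fin (q + 1) => N) u := by
  rw [segre, segre, map_sum, ← (Fin.insertNthEquiv (fun _ => Fin N) k).sum_comp,
    Fintype.sum_prod_type, sum_comm]
  refine sum_congr rfl fun l _ => ?_
  rw [map_mul, insHom, aeval_X, algHom_C, algebraMap_eq, mul_sum]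
  refine sum_congr rfl fun i _ => ?_
  rw [← mul_assoc, ← C_mul, Fin.prod_univ_succAbove _ k]
  congr 2
  rw [mul_comm]
  congr 1
  · simp [Fin.insertNthEquiv, hk]
  · refine prod_congr rfl fun j _ => ?_
    simp [Fin.insertNthEquiv, hj]

lemma ins_chow (k : Fin (q + 1)) (p : Fermat 𝕜 N m) {d : ℕ}
    {s : Fin d → Pts 𝕜 (fun _ : Fin q => N) m} {F : MvPolynomial (∀ _ : Fin q, Fin N) 𝕜}
    (h : Pool.Agent.T2H37.PR.IsChowForm (N := fun _ : Fin q => N) s F) :
    Pool.Agent.T2H37.PR.IsChowForm (N := fun _ : Fin (q + 1) => N) (fun j => ins k p (s j))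
      (insHom k p.1.rep F) := by
  obtain ⟨c, hc, rfl⟩ := h
  refine ⟨c, hc, ?_⟩
  rw [map_mul, map_prod, algHom_C, algebraMap_eq]
  congr 1
  refine prod_congr rfl fun j _ => ?_
  refine insHom_segre k _ _ _ ?_ fun i => ?_
  · exact congrArg (fun y : Fermat 𝕜 N m => y.1.rep) (ins_same k p (s j))
  · exact congrArg (fun y : Fermat 𝕜 N m => y.1.rep) (ins_above k p (s j) i)

lemma ins_joined (k : Fin (q + 1)) (p : Fermat 𝕜 N m) {d : ℕ}
    {s t : Fin d → Pts 𝕜 (fun _ : Fin q => N) m}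
    (h : Pool.Agent.T2H37.PR.Joined (N := fun _ : Fin q => N) s t) :
    Pool.Agent.T2H37.PR.Joined (N := fun _ : Fin (q + 1) => N) (fun j => ins k p (s j))
      (fun j => ins k p (t j)) := by
  obtain ⟨F, h1, h2, h3⟩ := h
  have hE : ∀ c : 𝕜, (F.map (insHom k p.1.rep).toRingHom).eval (C c) =
      insHom k p.1.rep (F.eval (C c)) := by
    intro c
    rw [Polynomial.eval_map]
    have h4 : (C c : MvPolynomial (∀ _ : Fin (q + 1), Fin N) 𝕜) =
        (insHom k p.1.rep).toRingHom (C c) := by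
      change C c = insHom k p.1.rep (C c)
      rw [algHom_C, algebraMap_eq]
    rw [h4, Polynomial.eval₂_at_apply]
    rfl
  refine ⟨F.map (insHom k p.1.rep).toRingHom, fun c => ?_, ?_, ?_⟩
  · obtain ⟨u, hu⟩ := h1 c
    refine ⟨fun j => ins k p (u j), ?_⟩
    rw [hE]
    exact ins_chow k p hu
  · rw [hE]
    exact ins_chow k p h2
  · rw [hE]
    exact ins_chow k p h3

lemma ins_rat (k : Fin (q + 1)) (p : Fermat 𝕜 N m) {w : Pts 𝕜 (fun _ : Fin q => N) m →₀ ℤ}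
    (hw : w ∈ RatEquivZero 𝕜 (fun _ : Fin q => N) m) :
    w.mapDomain (ins k p) ∈ RatEquivZero 𝕜 (fun _ : Fin (q + 1) => N) m := by
  classical
  set Φ : (Pts 𝕜 (fun _ : Fin q => N) m →₀ ℤ) →+ (Pts 𝕜 (fun _ : Fin (q + 1) => N) m →₀ ℤ) :=
    Finsupp.mapDomain.addMonoidHom (ins k p) with hΦ
  have h1 : RatEquivZero 𝕜 (fun _ : Fin q => N) m ≤
      (RatEquivZero 𝕜 (fun _ : Fin (q + 1) => N) m).comap Φ := by
    rw [Pool.Agent.T2H37.PR.RatEquivZero, AddSubgroup.closure_le]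
    rintro z ⟨d, s, t, hst, rfl⟩
    change Φ _ ∈ RatEquivZero 𝕜 (fun _ : Fin (q + 1) => N) m
    refine AddSubgroup.subset_closure ⟨d, _, _, ins_joined k p hst, ?_⟩
    rw [map_sub, map_sum, map_sum]
    congr 1
    · refine sum_congr rfl fun j _ => ?_
      exact Finsupp.mapDomain_single
    · refine sum_congr rfl fun j _ => ?_
      exact Finsupp.mapDomain_single
  exact h1 hw

section kill

variable [IsAlgClosed 𝕜] [CharZero 𝕜] [NeZero m] {r : ℕ}

lemma repP_of {d : ℕ} {s : Fin d → Pts 𝕜 (fun _ : Fin r => N) m}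
    {F : MvPolynomial (∀ _ : Fin r, Fin N) 𝕜}
    (h : Pool.Agent.T2H37.PR.IsChowForm (N := fun _ : Fin r => N) s F) :
    RepP (N := fun _ : Fin r => N) m d F ((univ : Finset (Fin d)).val.map
      fun j => fun k => (s j k).1.rep) := by
  obtain ⟨c, hc, hF⟩ := h
  refine ⟨by simp, ?_, c, hc, ?_⟩
  · intro v hv
    rw [Multiset.mem_map] at hv
    obtain ⟨j, -, rfl⟩ := hv
    exact onP_rep (s j)
  · rw [hF, Multiset.map_map]
    rfl

/-- the functional of a good function -/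
lemma good_kills {f : (∀ _ : Fin r, Fin N → 𝕜) → 𝕜} (hf : GoodP (N := fun _ : Fin r => N) m f)
    {w : Pts 𝕜 (fun _ : Fin r => N) m →₀ ℤ}
    (hw : w ∈ RatEquivZero 𝕜 (fun _ : Fin r => N) m) :
    (w.sum fun x c => (c : 𝕜) * f fun k => (x k).1.rep) = 0 := by
  classical
  set Φ : (Pts 𝕜 (fun _ : Fin r => N) m →₀ ℤ) →+ 𝕜 :=
    Finsupp.liftAddHom fun x => (AddMonoidHom.mulRight (f fun k => (x k).1.rep)).comp
      (Int.castAddHom 𝕜) with hΦ
  have h0 : ∀ z : Pts 𝕜 (fun _ : Fin r => N) m →₀ ℤ,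
      Φ z = z.sum fun x c => (c : 𝕜) * f fun k => (x k).1.rep := fun z => rfl
  have h1 : RatEquivZero 𝕜 (fun _ : Fin r => N) m ≤ Φ.ker := by
    rw [Pool.Agent.T2H37.PR.RatEquivZero, AddSubgroup.closure_le]
    rintro z ⟨d, s, t, ⟨F, hF1, hF2, hF3⟩, rfl⟩
    change Φ _ = 0
    rw [map_sub, map_sum, map_sum]
    have h2 : ∀ x : Pts 𝕜 (fun _ : Fin r => N) m, Φ (Finsupp.single x 1) =
        f fun k => (x k).1.rep := by
      intro x
      rw [h0, Finsupp.sum_single_index (by simp), Int.cast_one, one_mul]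
    simp only [h2]
    have h3 := hf.fam d (fun c => F.eval (C c)) ⟨F, fun c => rfl⟩
      (fun c => by
        obtain ⟨u, hu⟩ := hF1 c
        exact ⟨_, repP_of hu⟩) _ _ (repP_of hF2) (repP_of hF3)
    rw [Multiset.map_map, Multiset.map_map] at h3
    rw [sub_eq_zero]
    exact h3
  exact h1 hw

/-- If the push-forward is torsion, then the components with a trivial character vanish. -/
lemma LL_zero_of_push (hN : 2 ≤ N) {Z : Pts 𝕜 (fun _ : Fin (q + 1) => N) m →₀ ℤ}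
    {k : Fin (q + 1)} (hp : ∃ j : ℕ, 0 < j ∧ j • Z.mapDomain (forget k) ∈
      RatEquivZero 𝕜 (fun _ : Fin q => N) m)
    {φ : Pts 𝕜 (fun _ : Fin (q + 1) => N) m → 𝕜}
    (hφ : GoodP (N := fun _ : Fin (q + 1) => N) m (extP φ))
    {α : Fin (q + 1) → Fin N → ZMod m} (hk : α k = 0) : LL φ α Z = 0 := by
  classical
  by_cases hZ0 : Z = 0
  · rw [hZ0, LL, Finsupp.sum_zero_index]
  obtain ⟨x₀, -⟩ := Finsupp.support_nonempty_iff.2 hZ0
  obtain ⟨j, hj, hjp⟩ := hp
  have h1 := ins_rat k (x₀ k) hjp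
  have h2 := good_kills (hφ.compP (N := fun _ : Fin (q + 1) => N) α) h1
  have h3 : ∀ x : Pts 𝕜 (fun _ : Fin (q + 1) => N) m,
      cmp φ α (ins k (x₀ k) (forget k x)) = cmp φ α x := by
    intro x
    refine hφ.comp_congr (N := fun _ : Fin (q + 1) => N) (fun _ => hN) (onP_rep _) (onP_rep x)
      fun l hl => ?_
    have hlk : l ≠ k := by
      rintro rfl
      exact hl hk
    obtain ⟨i, rfl⟩ := Fin.exists_succAbove_eq hlk
    exact congrArg (fun y : Fermat 𝕜 N m => y.1.rep) (ins_above k (x₀ k) (forget k x) i)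
  have h4 : (j : 𝕜) * LL φ α Z = 0 := by
    rw [← h2]
    have h5 : (j • Z.mapDomain (forget k)).mapDomain (ins k (x₀ k)) =
        j • Z.mapDomain fun x => ins k (x₀ k) (forget k x) := by
      have h6 := map_nsmul (Finsupp.mapDomain.addMonoidHom (M := ℤ) (ins k (x₀ k))) j
        (Z.mapDomain (forget k))
      refine h6.trans ?_
      congr 1
      exact (Finsupp.mapDomain_comp (f := forget k) (g := ins k (x₀ k))).symm
    rw [h5, ← Nat.cast_smul_eq_nsmul ℤ, Finsupp.sum_smul_index' (fun x => by simp),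
      Finsupp.sum_mapDomain_index (fun x => by simp) (fun x a b => by
        rw [smul_add]
        push_cast
        ring)]
    rw [LL, Finsupp.sum, Finsupp.sum, mul_sum]
    refine sum_congr rfl fun x _ => ?_
    have h7 : Pool.Agent.T2H37.PR.compP (N := fun _ : Fin (q + 1) => N) (extP φ) α
        (fun i => (ins k (x₀ k) (forget k x) i).1.rep) = cmp φ α x := h3 x
    rw [h7, smul_eq_mul]
    push_cast
    ring
  exact (mul_eq_zero.1 h4).resolve_left (Nat.cast_ne_zero.2 hj.ne')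

/-- Symmetric zero-cycles with zero push-forward. -/
theorem symPush (hN : 2 ≤ N) {w : Fin N → ℕ} (hw : ∀ i, w i ∣ m)
    (hcomb : ∀ α : Fin (q + 1) → Fin N → ZMod m, (∀ j, Prim (α j)) → (∀ j, α j ∈ wtSet m w) →
      ∃ j l, j ≠ l ∧ (α j = α l ∨ Opp (α j) (α l)))
    {Z : Pts 𝕜 (fun _ : Fin (q + 1) => N) m →₀ ℤ}
    (hsym : ∀ (σ : Equiv.Perm (Fin (q + 1))) x, Z (fun j => x (σ j)) =
      (Equiv.Perm.sign σ : ℤ) ^ (N + 1) * Z x)
    (hinv : ∀ ζ : Fin (q + 1) → Fin N → 𝕜, (∀ j i, ζ j i ^ w i = 1) →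
      ∀ x y, Moved ζ 1 x y → Z y = Z x)
    (hp : ∀ k, ∃ j : ℕ, 0 < j ∧ j • Z.mapDomain (forget k) ∈
      RatEquivZero 𝕜 (fun _ : Fin q => N) m) :
    ∃ j : ℕ, 0 < j ∧ j • Z ∈ RatEquivZero 𝕜 (fun _ : Fin (q + 1) => N) m :=
  symG hN (wtSet m w) hcomb hsym (fun φ α j hj => LL_zero_of_wt hw hinv φ α j hj)
    fun ψ hψ0 _ k hk => LL_zero_of_push hN (hp k) (goodP_of ψ hψ0) hk

end kill

end Pool.Agent.U840.BL
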