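import Pool.Agent.U840.BL.Bloch

/-!
# Symmetric zero-cycles with zero push-forward
-/

set_option autoImplicit false

namespace Pool.Agent.U840.BL

open MvPolynomial Finset Pool.Agent.T2H37.FK Pool.Agent.T2H37.PR Pool.Agent.U840.VS

variable {𝕜 : Type*} [Field 𝕜] [IsAlgClosed 𝕜] [CharZero 𝕜] {N m r : ℕ} [NeZero m]

/-- The general statement on symmetric cycles: the characters of the factors are in the set `A`. -/
theorem symG (hN : 2 ≤ N) (A : Set (Fin N → ZMod m))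
    (hcomb : ∀ α : Fin r → Fin N → ZMod m, (∀ j, Prim (α j)) → (∀ j, α j ∈ A) →
      ∃ j l, j ≠ l ∧ (α j = α l ∨ Opp (α j) (α l)))
    {Z : Pts 𝕜 (fun _ : Fin r => N) m →₀ ℤ}
    (hsym : ∀ (σ : Equiv.Perm (Fin r)) x, Z (fun j => x (σ j)) =
      (Equiv.Perm.sign σ : ℤ) ^ (N + 1) * Z x)
    (hA : ∀ (φ : Pts 𝕜 (fun _ : Fin r => N) m → 𝕜) (α : Fin r → Fin N → ZMod m) (j : Fin r),
      α j ∉ A → LL φ α Z = 0)
    (hpush : ∀ ψ : (Pts 𝕜 (fun _ : Fin r => N) m →₀ ℤ) →+ 𝕜,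
      (∀ w ∈ RatEquivZero 𝕜 (fun _ : Fin r => N) m, ψ w = 0) →
      ∀ (α : Fin r → Fin N → ZMod m) (k : Fin r), α k = 0 →
      LL (fun x => ψ (Finsupp.single x 1)) α Z = 0) :
    ∃ j : ℕ, 0 < j ∧ j • Z ∈ RatEquivZero 𝕜 (fun _ : Fin r => N) m := by
  refine torsion_of_LL Z fun ψ hψ0 α => ?_
  have hφ := goodP_of ψ hψ0
  by_contra hne
  have hα1 : ∀ j, α j ≠ 0 := fun j hj => hne (hpush ψ hψ0 α j hj)
  have hα2 : ∀ j, α j ∈ A := fun j => by
    by_contra hj
    exact hne (hA _ α j hj)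
  obtain ⟨x₀, hx₀⟩ : ∃ x, cmp (fun x => ψ (Finsupp.single x 1)) α x ≠ 0 := by
    by_contra hcon
    push Not at hcon
    exact hne (LL_zero_of hcon Z)
  have hP : ∀ j, Prim (α j) := fun j => prim_of_ne hφ hα1 hx₀ j
  obtain ⟨j, l, hjl, h | h⟩ := hcomb α hP hα2
  · refine hne (LL_zero_of_exch (g := 0) (t := (-1) ^ (N + 1)) hN hφ hjl h
      (prim_ne_zero hN (hP j)) ?_ (fun x => ?_) ?_)
    · rw [← mul_pow]
      norm_num
    · have h1 : mv (0 : Fin r → Fin N → ZMod m) (Equiv.swap j l) x =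
          fun i => x (Equiv.swap j l i) := by
        have h2 : dgP (N := fun _ : Fin r => N) (0 : Fin r → Fin N → ZMod m)
            (fun i => (x (Equiv.swap j l i)).1.rep) = fun i => (x (Equiv.swap j l i)).1.rep := by
          funext i
          funext i'
          simp [dgP, dg, e_zero]
        funext i
        apply Subtype.ext
        have h3 : (mv (0 : Fin r → Fin N → ZMod m) (Equiv.swap j l) x i).1 =
            Projectivization.mk 𝕜 (dgP (N := fun _ : Fin r => N) (0 : Fin r → Fin N → ZMod m)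
              (fun i => (x (Equiv.swap j l i)).1.rep) i)
              (onP_dg (N := fun _ : Fin r => N) 0 (fun i => onX_rep (x (Equiv.swap j l i))) i).1 := rfl
        rw [h3]
        simp only [h2]
        exact (x (Equiv.swap j l i)).1.mk_rep
      rw [h1, hsym, Equiv.Perm.sign_swap hjl]
      rfl
    · have h2 : prP (N := fun _ : Fin r => N) α 0 = 0 := by simp [prP, pr]
      rw [h2, e_zero]
      push_cast
      rw [mul_one, pow_succ, mul_right_comm, ← mul_pow]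
      norm_num
  · exact hx₀ (cmp_zero_of_opp hN hφ hP hjl h x₀)

/-! ### Weights -/

/-- The characters `α` such that `α i` is a multiple of `w i` modulo `m`. -/
def wtSet (m : ℕ) {N : ℕ} (w : Fin N → ℕ) : Set (Fin N → ZMod m) :=
  {α | ∀ i, ((m / w i : ℕ) : ZMod m) * α i = 0}

lemma LL_zero_of_wt {w : Fin N → ℕ} (hw : ∀ i, w i ∣ m)
    {Z : Pts 𝕜 (fun _ : Fin r => N) m →₀ ℤ}
    (hinv : ∀ ζ : Fin r → Fin N → 𝕜, (∀ j i, ζ j i ^ w i = 1) → ∀ x y, Moved ζ 1 x y → Z y = Z x)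
    (φ : Pts 𝕜 (fun _ : Fin r => N) m → 𝕜) (α : Fin r → Fin N → ZMod m) (j : Fin r)
    (hj : α j ∉ wtSet m w) : LL φ α Z = 0 := by
  have h1 : ∃ i, ((m / w i : ℕ) : ZMod m) * α j i ≠ 0 := by
    by_contra hcon
    push Not at hcon
    exact hj hcon
  obtain ⟨i, hi⟩ := h1
  refine LL_zero_of_diag (g := Pi.single j (Pi.single i ((m / w i : ℕ) : ZMod m))) (fun x => ?_) ?_
  · refine hinv _ (fun j' i' => ?_) x _ (moved_mv _ 1 x)
    by_cases h3 : j' ≠ j ∨ i' ≠ i
    · rw [single_off h3, e_zero, one_pow]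
    · push Not at h3
      obtain ⟨rfl, rfl⟩ := h3
      rw [Pi.single_eq_same, Pi.single_eq_same, e_pow, ← Nat.cast_mul, Nat.mul_div_cancel' (hw i'),
        ZMod.natCast_self, e_zero]
  · rw [prP_single, mul_comm]
    exact hi

/-! ### Exterior products -/

lemma extProd_apply (z : Fin r → (Fermat 𝕜 N m →₀ ℤ)) (x : Pts 𝕜 (fun _ : Fin r => N) m) :
    extProd (N := fun _ : Fin r => N) z x = ∏ k, z k (x k) := by
  classical
  rw [extProd, Finsupp.finsetSum_apply]
  simp only [Finsupp.single_apply]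
  rw [sum_ite_eq']
  split_ifs with h
  · rfl
  · rw [mem_prodSupp] at h
    push Not at h
    obtain ⟨k, hk⟩ := h
    rw [Finsupp.notMem_support_iff] at hk
    exact (prod_eq_zero (mem_univ k) hk).symm

lemma LL_extProd_zero (hN : 2 ≤ N) {φ : Pts 𝕜 (fun _ : Fin r => N) m → 𝕜}
    (hφ : GoodP (N := fun _ : Fin r => N) m (extP φ)) (z : Fin r → (Fermat 𝕜 N m →₀ ℤ))
    (hz : ∀ i, ((z i).sum fun _ c => c) = 0) {α : Fin r → Fin N → ZMod m} {k : Fin r}
    (hk : α k = 0) : LL φ α (extProd (N := fun _ : Fin r => N) z) = 0 := by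
  classical
  have h1 : LL φ α (extProd (N := fun _ : Fin r => N) z) =
      ∑ x ∈ prodSupp (N := fun _ : Fin r => N) z, (∏ k, (z k (x k) : 𝕜)) * cmp φ α x := by
    rw [LL, Finsupp.sum]
    have h2 : (extProd (N := fun _ : Fin r => N) z).support ⊆
        prodSupp (N := fun _ : Fin r => N) z := by
      intro x hx
      rw [Finsupp.mem_support_iff, extProd_apply] at hx
      rw [mem_prodSupp]
      intro k
      rw [Finsupp.mem_support_iff]
      exact fun h3 => hx (prod_eq_zero (mem_univ k) h3)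
    rw [sum_subset h2 fun x _ hx => by
      rw [Finsupp.notMem_support_iff] at hx
      rw [hx, Int.cast_zero, zero_mul]]
    refine sum_congr rfl fun x _ => ?_
    rw [extProd_apply]
    push_cast
    rfl
  rw [h1]
  refine sum_supp_zero (N := fun _ : Fin r => N) z k (hz _) _ ?_
  intro x x' hxx
  refine hφ.comp_congr (N := fun _ : Fin r => N) (fun _ => hN) (onP_rep x) (onP_rep x')
    fun l hl => ?_
  have hkk : l ≠ k := by
    rintro rfl
    exact hl hk
  rw [hxx l hkk]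

lemma LL_sum {ι : Type*} (s : Finset ι) (φ : Pts 𝕜 (fun _ : Fin r => N) m → 𝕜)
    (α : Fin r → Fin N → ZMod m) (c : ι → ℤ) (z : ι → Pts 𝕜 (fun _ : Fin r => N) m →₀ ℤ) :
    LL φ α (∑ i ∈ s, c i • z i) = ∑ i ∈ s, (c i : 𝕜) * LL φ α (z i) := by
  classical
  induction s using Finset.induction_on with
  | empty => simp [LL]
  | insert i s hi ih =>
    rw [sum_insert hi, sum_insert hi, ← ih, LL, Finsupp.sum_add_index' (fun x => by simp)
      (fun x a b => by push_cast; ring), Finsupp.sum_smul_index' (fun x => by simp)]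
    congr 1
    rw [LL, Finsupp.sum, Finsupp.sum, mul_sum]
    refine sum_congr rfl fun x _ => ?_
    rw [smul_eq_mul]
    push_cast
    ring

/-- Voisin's conjecture for quotients given by weights. -/
theorem voisinW (hN : 2 ≤ N) {w : Fin N → ℕ} (hw : ∀ i, w i ∣ m)
    (hcomb : ∀ α : Fin r → Fin N → ZMod m, (∀ j, Prim (α j)) → (∀ j, α j ∈ wtSet m w) →
      ∃ j l, j ≠ l ∧ (α j = α l ∨ Opp (α j) (α l)))
    (z : Fin r → (Fermat 𝕜 N m →₀ ℤ)) (hz : ∀ i, ((z i).sum fun _ c => c) = 0)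
    (hinv : ∀ ζ : Fin N → 𝕜, (∀ i, ζ i ^ w i = 1) → ∀ x y : Fermat 𝕜 N m,
      (∃ c : 𝕜, ∀ i, y.1.rep i = c * (ζ i * x.1.rep i)) → ∀ k, z k y = z k x) :
    ∃ j : ℕ, 0 < j ∧ j • ∑ σ : Equiv.Perm (Fin r), ((Equiv.Perm.sign σ : ℤ) ^ (N + 1)) •
      extProd (N := fun _ : Fin r => N) (fun k => z (σ k)) ∈
      RatEquivZero 𝕜 (fun _ : Fin r => N) m := by
  have hZ : ∀ y : Pts 𝕜 (fun _ : Fin r => N) m, (∑ σ : Equiv.Perm (Fin r),
      ((Equiv.Perm.sign σ : ℤ) ^ (N + 1)) • extProd (N := fun _ : Fin r => N) (fun k => z (σ k))) y =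
      ∑ σ : Equiv.Perm (Fin r), (Equiv.Perm.sign σ : ℤ) ^ (N + 1) * ∏ k, z (σ k) (y k) := by
    intro y
    rw [Finsupp.finsetSum_apply]
    refine sum_congr rfl fun σ _ => ?_
    rw [Finsupp.smul_apply, extProd_apply, smul_eq_mul]
  refine symG hN (wtSet m w) hcomb ?_ ?_ ?_
  · intro τ x
    rw [hZ x, mul_sum]
    refine (hZ (fun j => x (τ j))).trans ?_
    rw [← Equiv.sum_comp (Equiv.mulRight τ)]
    refine sum_congr rfl fun σ _ => ?_
    rw [Equiv.coe_mulRight, Equiv.Perm.sign_mul]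
    have h1 : ∏ k, z ((σ * τ) k) (x (τ k)) = ∏ k, z (σ k) (x k) :=
      Equiv.prod_comp τ fun k => z (σ k) (x k)
    rw [h1]
    push_cast
    ring
  · refine LL_zero_of_wt hw fun ζ hζ x y hxy => ?_
    rw [hZ x, hZ y]
    refine sum_congr rfl fun σ _ => ?_
    congr 1
    refine prod_congr rfl fun k _ => ?_
    exact hinv (ζ k) (hζ k) (x k) (y k) (hxy k) (σ k)
  · intro ψ hψ0 α k hk
    have h1 : (∑ σ : Equiv.Perm (Fin r), ((Equiv.Perm.sign σ : ℤ) ^ (N + 1)) •
        extProd (N := fun _ : Fin r => N) (fun k => z (σ k))) =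
        ∑ σ ∈ (univ : Finset (Equiv.Perm (Fin r))), ((Equiv.Perm.sign σ : ℤ) ^ (N + 1)) •
          extProd (N := fun _ : Fin r => N) (fun k => z (σ k)) := rfl
    rw [h1, LL_sum]
    refine sum_eq_zero fun σ _ => ?_
    rw [LL_extProd_zero hN (goodP_of ψ hψ0) (fun k => z (σ k)) (fun i => hz _) hk, mul_zero]

end Pool.Agent.U840.BL
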