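import Pool.Agent.U840.BL.Tower

/-!
# Zero-cycles on quotients of powers
-/

set_option autoImplicit false

namespace Pool.Agent.U840.BL

open MvPolynomial Finset Pool.Agent.T2H37.FK Pool.Agent.T2H37.PR Pool.Agent.U840.VS

/-- The exponents `a` are irreducible for the degree `m` and the weights `w`: `a i` is a multiple of
`w i`, the sum of all `a i` is divisible by `m`, and the sum over a proper nonempty set of coordinates is
not divisible by `m`. -/
def IrrExp (m : ℕ) {N : ℕ} (w a : Fin N → ℕ) : Prop :=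
  (∀ i, w i ∣ a i) ∧ m ∣ ∑ i, a i ∧
    ∀ B : Finset (Fin N), B.Nonempty → B ≠ univ → ¬ m ∣ ∑ i ∈ B, a i

/-- `Γ` is a set of automorphisms of the `k`-th power of the Fermat hypersurface, given by a tuple of
diagonal matrices and a permutation. For every nonempty set `S` of factors and all irreducible exponents
`a` there is an element `(ζ, σ)` of `Γ`, with `m`-th roots of unity as entries and `σ S = S`, such that
`sgn(σ | S) ^ N * ∏ j ∈ S, ∏ i, ζ j i ^ a i ≠ 1`. The left side is the factor by which `(ζ, σ)` acts on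
`∏ j ∈ S, ω_a(x_j)`, where `ω_a` is the residue of the form with the monomial `x ^ (a - 1)`. -/
def NoInvariant {𝕜 : Type*} [Field 𝕜] {N k : ℕ} (m : ℕ) (w : Fin N → ℕ)
    (Γ : Set ((Fin k → Fin N → 𝕜) × Equiv.Perm (Fin k))) : Prop :=
  ∀ S : Finset (Fin k), S.Nonempty → ∀ a : Fin N → ℕ, IrrExp m w a →
    ∃ γ ∈ Γ, (∀ l i, γ.1 l i ^ m = 1) ∧ ∃ h : ∀ j, γ.2 j ∈ S ↔ j ∈ S,
      ((Equiv.Perm.sign (γ.2.subtypePerm h) : ℤ) : 𝕜) ^ N * ∏ j ∈ S, ∏ i, γ.1 j i ^ a i ≠ 1

variable {𝕜 : Type*} [Field 𝕜] [IsAlgClosed 𝕜] [CharZero 𝕜] {N m k : ℕ}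

lemma wt_dvd_val [NeZero m] {w : ℕ} (hw : w ∣ m) {x : ZMod m} (h : ((m / w : ℕ) : ZMod m) * x = 0) :
    w ∣ x.val := by
  have hm : 0 < m := Nat.pos_of_ne_zero (NeZero.ne m)
  have hw0 : 0 < w := Nat.pos_of_dvd_of_pos hw hm
  have h1 : ((m / w * x.val : ℕ) : ZMod m) = 0 := by
    rw [Nat.cast_mul, ZMod.natCast_zmod_val]
    exact h
  rw [ZMod.natCast_eq_zero_iff] at h1
  obtain ⟨c, hc⟩ := h1
  refine ⟨c, ?_⟩
  have h2 : 0 < m / w := Nat.div_pos (Nat.le_of_dvd hm hw) hw0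
  apply Nat.eq_of_mul_eq_mul_left h2
  rw [hc, ← mul_assoc, Nat.div_mul_cancel hw]

/-- Permutations of factors with the same character. -/
lemma perm_cmp [NeZero m] (hN : 2 ≤ N) {φ : Pts 𝕜 (fun _ : Fin k => N) m → 𝕜}
    (hφ : GoodP (N := fun _ : Fin k => N) m (extP φ)) {α : Fin k → Fin N → ZMod m}
    {α₀ : Fin N → ZMod m} (hα₀ : ∀ i, α₀ i ≠ 0) {S : Finset (Fin k)} (hS : ∀ j ∈ S, α j = α₀)
    (hS' : ∀ j, j ∉ S → α j = 0) (σ : Equiv.Perm (Fin k)) (h : ∀ j, σ j ∈ S ↔ j ∈ S)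
    (x : Pts 𝕜 (fun _ : Fin k => N) m) :
    cmp φ α (fun j => x (σ j)) =
      ((Equiv.Perm.sign (σ.subtypePerm h) : ℤ) : 𝕜) ^ N * cmp φ α x := by
  classical
  have h1 : ∀ (τ : Equiv.Perm {j // j ∈ S}) (x : Pts 𝕜 (fun _ : Fin k => N) m),
      cmp φ α (fun j => x (Equiv.Perm.ofSubtype τ j)) =
        ((Equiv.Perm.sign τ : ℤ) : 𝕜) ^ N * cmp φ α x := by
    intro τ
    induction τ using Equiv.Perm.swap_induction_on with
    | one =>
      intro x
      have h2 : (fun j => x (Equiv.Perm.ofSubtype (1 : Equiv.Perm {j // j ∈ S}) j)) = x := by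
        funext j
        rw [map_one]
        rfl
      rw [h2, Equiv.Perm.sign_one]
      push_cast
      rw [one_pow, one_mul]
    | swap_mul f a b hab ih =>
      intro x
      have hab' : (a : Fin k) ≠ b := fun h => hab (Subtype.ext h)
      have h2 : (fun j => x (Equiv.Perm.ofSubtype (Equiv.swap a b * f) j)) =
          fun j => (fun l => x (Equiv.swap (a : Fin k) b l)) (Equiv.Perm.ofSubtype f j) := by
        funext j
        rw [map_mul, Equiv.Perm.ofSubtype_swap_eq]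
        rfl
      have h3 : cmp φ α (fun l => x (Equiv.swap (a : Fin k) b l)) = (-1) ^ N * cmp φ α x :=
        exch_swap hN hφ hab' (by rw [hS _ a.2, hS _ b.2]) (fun i => by
          rw [hS _ a.2]
          exact hα₀ i) (onP_rep x)
      have h4 := ih (fun l => x (Equiv.swap (a : Fin k) b l))
      rw [h2]
      refine h4.trans ?_
      rw [h3, Equiv.Perm.sign_mul, Equiv.Perm.sign_swap hab]
      push_cast
      rw [← mul_assoc, ← mul_pow]
      congr 2
      ring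
  have h2 : cmp φ α (fun j => x (σ j)) =
      cmp φ α (fun j => x (Equiv.Perm.ofSubtype (σ.subtypePerm h) j)) := by
    refine hφ.comp_congr (N := fun _ : Fin k => N) (fun _ => hN) (onP_rep _) (onP_rep _)
      fun l hl => ?_
    have hlS : l ∈ S := by
      by_contra h3
      exact hl (hS' l h3)
    have h3 : Equiv.Perm.ofSubtype (σ.subtypePerm h) l = σ l := by
      rw [Equiv.Perm.ofSubtype_apply_of_mem _ hlS]
      rfl
    exact congrArg (fun j : Fin k => (x j).1.rep) h3.symm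
  rw [h2, h1]

/-- The main statement: all pairs of characters are equal or opposite. -/
theorem powQuot [NeZero m] (hN : 2 ≤ N) {w : Fin N → ℕ} (hw : ∀ i, w i ∣ m)
    (hpair : ∀ α β : Fin N → ZMod m, Prim α → Prim β → α ∈ wtSet m w → β ∈ wtSet m w →
      α = β ∨ Opp α β ∨ Opp β α)
    {Γ : Set ((Fin k → Fin N → 𝕜) × Equiv.Perm (Fin k))} (hΓ : NoInvariant m w Γ)
    {Z : Pts 𝕜 (fun _ : Fin k => N) m →₀ ℤ} (h0 : (Z.sum fun _ c => c) = 0)
    (hinv : WtInv w Z) (hΓZ : ∀ γ ∈ Γ, ∀ x y, Moved γ.1 γ.2 x y → Z y = Z x) :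
    ∃ j : ℕ, 0 < j ∧ j • Z ∈ RatEquivZero 𝕜 (fun _ : Fin k => N) m := by
  classical
  refine torsion_of_LL Z fun ψ hψ0 α => ?_
  have hφ := goodP_of ψ hψ0
  by_contra hne
  obtain ⟨x₀, hx₀⟩ : ∃ x, cmp (fun x => ψ (Finsupp.single x 1)) α x ≠ 0 := by
    by_contra hcon
    push Not at hcon
    exact hne (LL_zero_of hcon Z)
  have hA : ∀ j, α j ∈ wtSet m w := fun j => by
    by_contra hj
    exact hne (LL_zero_of_wt hw hinv _ α j hj)
  have hS : ∀ j, ∑ i, α j i = 0 := fun j => by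
    by_contra h
    exact hx₀ (hφ.comp_sum_ne (k := j) h (onP_rep x₀))
  have hP : ∀ j, α j ≠ 0 → Prim (α j) := fun j hj =>
    ⟨hS j, fun B hB hB' h => hx₀ (hφ.comp_B_zero (k := j) hB hB' hj h (onP_rep x₀))⟩
  have hopp : ∀ j l, j ≠ l → α j ≠ 0 → α l ≠ 0 → ¬ Opp (α j) (α l) := by
    intro j l hjl hj hl h
    obtain ⟨b, c, h1, h2, h3⟩ := h
    have hb : ∃ d : ∀ _ : Fin k, Fin N → Fin 3, d j = b ∧ d l = c := by
      refine ⟨Function.update (fun _ => c) j b, ?_, ?_⟩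
      · rw [Function.update_self]
      · rw [Function.update_of_ne hjl.symm]
    obtain ⟨d, hd1, hd2⟩ := hb
    refine hx₀ (hφ.comp_three (N := fun _ : Fin k => N) hjl (b := d) hS ?_ ?_ ?_
      (prim_ne_zero hN (hP j hj)) (prim_ne_zero hN (hP l hl)) (onP_rep x₀))
    · intro B
      rw [hd1, hd2]
      exact h1 B
    · rw [hd1]
      exact h2
    · rw [hd2]
      exact h3
  obtain ⟨j₀, hj₀⟩ : ∃ j, α j ≠ 0 := by
    by_contra hcon
    push Not at hcon
    have h1 : α = 0 := funext hcon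
    rw [h1] at hne
    exact hne (LL_zero_zero hN hφ h0)
  set S : Finset (Fin k) := univ.filter fun j => α j ≠ 0 with hSdef
  have hSin : ∀ j, j ∈ S ↔ α j ≠ 0 := fun j => by simp [hSdef]
  have hSeq : ∀ j ∈ S, α j = α j₀ := by
    intro j hj
    rw [hSin] at hj
    by_cases hjj : j = j₀
    · rw [hjj]
    rcases hpair (α j) (α j₀) (hP j hj) (hP j₀ hj₀) (hA j) (hA j₀) with h | h | h
    · exact h
    · exact absurd h (hopp j j₀ hjj hj hj₀)
    · exact absurd h (hopp j₀ j (Ne.symm hjj) hj₀ hj)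
  have hSout : ∀ j, j ∉ S → α j = 0 := fun j hj => by
    by_contra h
    exact hj ((hSin j).2 h)
  have hirr : IrrExp m w fun i => (α j₀ i).val := by
    have hval : ∀ B : Finset (Fin N), ((∑ i ∈ B, (α j₀ i).val : ℕ) : ZMod m) = ∑ i ∈ B, α j₀ i := by
      intro B
      rw [Nat.cast_sum]
      exact sum_congr rfl fun i _ => ZMod.natCast_zmod_val _
    refine ⟨fun i => wt_dvd_val (hw i) (hA j₀ i), ?_, fun B hB hB' h => ?_⟩
    · rw [← ZMod.natCast_eq_zero_iff, hval, hS j₀]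
    · rw [← ZMod.natCast_eq_zero_iff, hval] at h
      exact (hP j₀ hj₀).2 B hB hB' h
  obtain ⟨γ, hγ, hγm, hγS, hγ1⟩ := hΓ S ⟨j₀, (hSin j₀).2 hj₀⟩ _ hirr
  have hg : ∀ l i, ∃ g : ZMod m, e 𝕜 g = γ.1 l i := fun l i => exists_e (hγm l i)
  choose g hg using hg
  have hζg : (fun l i => e 𝕜 (g l i)) = γ.1 := by
    funext l i
    exact hg l i
  have h1 := LL_mv (φ := fun x => ψ (Finsupp.single x 1)) (α := α) (g := g) (σ := γ.2) (t := 1)
    (by norm_num) (z := Z) (fun x => by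
      rw [one_mul]
      refine hΓZ γ hγ x _ ?_
      rw [← hζg]
      exact moved_mv g γ.2 x)
  have h2 : (Z.sum fun x c => (c : 𝕜) * cmp (fun x => ψ (Finsupp.single x 1)) α
      fun j => x (γ.2 j)) = ((Equiv.Perm.sign (γ.2.subtypePerm hγS) : ℤ) : 𝕜) ^ N *
        LL (fun x => ψ (Finsupp.single x 1)) α Z := by
    rw [LL, Finsupp.sum, Finsupp.sum, mul_sum]
    refine sum_congr rfl fun x _ => ?_
    rw [perm_cmp hN hφ (prim_ne_zero hN (hP j₀ hj₀)) hSeq hSout γ.2 hγS x]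
    ring
  have h3 : prP (N := fun _ : Fin k => N) α g = ∑ j ∈ S, ∑ i, α j₀ i * g j i := by
    rw [prP, ← sum_subset (subset_univ S)]
    · refine sum_congr rfl fun j hj => ?_
      rw [pr, hSeq j hj]
    · intro j _ hj
      simp [pr, hSout j hj]
  have h4 : e 𝕜 (prP (N := fun _ : Fin k => N) α g) =
      ∏ j ∈ S, ∏ i, γ.1 j i ^ (α j₀ i).val := by
    rw [h3, e_sum]
    refine prod_congr rfl fun j _ => ?_
    rw [e_sum]
    refine prod_congr rfl fun i _ => ?_
    rw [← hg, e_pow, ZMod.natCast_zmod_val]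
  rw [h2, h4, Int.cast_one, one_mul] at h1
  have h5 : (((Equiv.Perm.sign (γ.2.subtypePerm hγS) : ℤ) : 𝕜) ^ N *
      ∏ j ∈ S, ∏ i, γ.1 j i ^ (α j₀ i).val - 1) *
        LL (fun x => ψ (Finsupp.single x 1)) α Z = 0 := by
    linear_combination -h1
  exact (mul_ne_zero (sub_ne_zero.2 hγ1) hne) h5

/-- Good weights: any two characters are equal or opposite. -/
lemma good_pair {N m : ℕ} (hN : 3 ≤ N) {w : Fin N → ℕ} (hw : GoodWeights N m w) :
    0 < m ∧ (∀ i, w i ∣ m) ∧ ∀ _ : NeZero m, ∀ α β : Fin N → ZMod m, Prim α → Prim β →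
      α ∈ wtSet m w → β ∈ wtSet m w → α = β ∨ Opp α β ∨ Opp β α := by
  rcases hw with ⟨N₀, s, hN₀, hNs, hms, hws⟩ | h
  · have hw' : w = towerWt N₀ N₀ := funext hws
    subst hw'
    have hm0 : 0 < m := by
      rw [hms]
      positivity
    refine ⟨hm0, towerWt_dvd hNs hms, fun _ α β hα hβ hα' hβ' => ?_⟩
    obtain ⟨j, l, hjl, h⟩ := exists_eq_tower (m₀ := N₀) (r := 2) (by omega : 1 ≤ N₀) (by omega)
      (by rw [Nat.choose_self]; norm_num) s hNs hms ![α, β]
      (by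
        intro j
        fin_cases j
        · exact hα
        · exact hβ)
      (by
        intro j i hi
        fin_cases j
        · exact tower_cond hNs (by omega) hms hα' i hi
        · exact tower_cond hNs (by omega) hms hβ' i hi)
    fin_cases j <;> fin_cases l
    · exact absurd rfl hjl
    · rcases h with h | h
      · exact Or.inl h
      · exact Or.inr (Or.inl h)
    · rcases h with h | h
      · exact Or.inl h.symm
      · exact Or.inr (Or.inr h)
    · exact absurd rfl hjl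
  · have h1 := cy3_dvd _ h
    refine ⟨h1.1, fun i => h1.2 _ (List.mem_ofFn.2 ⟨i, rfl⟩), fun _ α β hα hβ hα' hβ' => ?_⟩
    rcases chk_sound hN (fun i => h1.2 _ (List.mem_ofFn.2 ⟨i, rfl⟩)) (cy3_chk _ h) hα hβ hα' hβ'
      with h2 | h2
    · exact Or.inl h2
    · exact Or.inr (Or.inl h2)

/-- Quotients of powers of weighted Fermat Calabi-Yau varieties. -/
theorem powQuotGood {N m k : ℕ} (hN : 3 ≤ N) {w : Fin N → ℕ} (hw : GoodWeights N m w)
    {Γ : Set ((Fin k → Fin N → 𝕜) × Equiv.Perm (Fin k))} (hΓ : NoInvariant m w Γ)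
    {Z : Pts 𝕜 (fun _ : Fin k => N) m →₀ ℤ} (h0 : (Z.sum fun _ c => c) = 0)
    (hinv : WtInv w Z) (hΓZ : ∀ γ ∈ Γ, ∀ x y, Moved γ.1 γ.2 x y → Z y = Z x) :
    ∃ j : ℕ, 0 < j ∧ j • Z ∈ RatEquivZero 𝕜 (fun _ : Fin k => N) m := by
  obtain ⟨hm, hd, hp⟩ := good_pair hN hw
  have : NeZero m := ⟨hm.ne'⟩
  exact powQuot (by omega) hd (hp this) hΓ h0 hinv hΓZ

end Pool.Agent.U840.BL
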