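import Pool.Agent.U840.BL.SymPow

/-!
# Zero-cycles on quotients of symmetric powers
-/

set_option autoImplicit false

namespace Pool.Agent.U840.BL

open MvPolynomial Finset Pool.Agent.T2H37.FK Pool.Agent.T2H37.PR Pool.Agent.U840.VS

variable {𝕜 : Type*} [Field 𝕜] {N m k : ℕ}

lemma moved_one {σ : Equiv.Perm (Fin k)} {x y : Pts 𝕜 (fun _ : Fin k => N) m}
    (h : Moved (fun _ _ => 1) σ x y) : y = fun j => x (σ j) := by
  funext j
  obtain ⟨c, hc⟩ := h j
  apply Subtype.ext
  have h1 : (y j).1.rep = c • (x (σ j)).1.rep := by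
    funext i
    rw [hc i, one_mul]
    rfl
  have h2 : Projectivization.mk 𝕜 (y j).1.rep (y j).1.rep_nonzero =
      Projectivization.mk 𝕜 (x (σ j)).1.rep (x (σ j)).1.rep_nonzero :=
    (Projectivization.mk_eq_mk_iff' 𝕜 _ _ _ _).2 ⟨c, h1.symm⟩
  rw [Projectivization.mk_rep, Projectivization.mk_rep] at h2
  exact h2

variable [IsAlgClosed 𝕜] [CharZero 𝕜]

/-- The symmetric power divided by the covering group of a coordinate. -/
theorem symPowCover {N m k : ℕ} (hN : 3 ≤ N) (hodd : Odd N) {w : Fin N → ℕ}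
    (hw : GoodWeights N m w) (i₀ : Fin N)
    {Z : Pts 𝕜 (fun _ : Fin k => N) m →₀ ℤ} (h0 : (Z.sum fun _ c => c) = 0)
    (hinv : WtInv w Z) (hsym : ∀ (σ : Equiv.Perm (Fin k)) x, Z (fun j => x (σ j)) = Z x)
    (hcov : ∀ ζ : 𝕜, ζ ^ m = 1 → ∀ x y,
      Moved (fun _ i => if i = i₀ then ζ else 1) 1 x y → Z y = Z x) :
    ∃ j : ℕ, 0 < j ∧ j • Z ∈ RatEquivZero 𝕜 (fun _ : Fin k => N) m := by
  classical
  obtain ⟨hm, -, -⟩ := good_pair hN hw
  have : NeZero m := ⟨hm.ne'⟩
  refine powQuotGood hN hw (Γ := {γ | (∃ ζ : 𝕜, ζ ^ m = 1 ∧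
    γ = (fun _ i => if i = i₀ then ζ else 1, 1)) ∨ ∃ σ, γ = (fun _ _ => 1, σ)}) ?_ h0 hinv ?_
  · intro S hS a ha
    by_cases h2 : ∃ j ∈ S, ∃ l ∈ S, j ≠ l
    · obtain ⟨j, hj, l, hl, hjl⟩ := h2
      have h3 : ∀ i, Equiv.swap j l i ∈ S ↔ i ∈ S := by
        intro i
        by_cases h4 : i = j
        · rw [h4, Equiv.swap_apply_left]
          exact ⟨fun _ => hj, fun _ => hl⟩
        by_cases h5 : i = l
        · rw [h5, Equiv.swap_apply_right]
          exact ⟨fun _ => hl, fun _ => hj⟩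
        rw [Equiv.swap_apply_of_ne_of_ne h4 h5]
      refine ⟨(fun _ _ => 1, Equiv.swap j l), Or.inr ⟨_, rfl⟩, fun _ _ => one_pow _, h3, ?_⟩
      change ((Equiv.Perm.sign ((Equiv.swap j l).subtypePerm h3) : ℤ) : 𝕜) ^ N *
        ∏ _j ∈ S, ∏ i, (1 : 𝕜) ^ a i ≠ 1
      have h6 : (Equiv.swap j l).subtypePerm h3 = Equiv.swap ⟨j, hj⟩ ⟨l, hl⟩ := by
        apply Equiv.Perm.ofSubtype_injective
        rw [Equiv.Perm.ofSubtype_subtypePerm h3 (fun i hi => by
          by_contra h4
          apply hi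
          refine Equiv.swap_apply_of_ne_of_ne ?_ ?_
          · rintro rfl
            exact h4 hj
          · rintro rfl
            exact h4 hl), Equiv.Perm.ofSubtype_swap_eq]
      rw [h6, Equiv.Perm.sign_swap (fun h7 => hjl (congrArg Subtype.val h7))]
      simp only [one_pow, prod_const_one, mul_one, Units.val_neg, Units.val_one, Int.cast_neg,
        Int.cast_one]
      rw [hodd.neg_one_pow]
      intro h4
      have h5 : (2 : 𝕜) = 0 := by linear_combination -h4
      exact two_ne_zero h5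
    · push Not at h2
      obtain ⟨j, hj⟩ := hS
      have hSj : S = {j} := by
        ext l
        rw [mem_singleton]
        exact ⟨fun hl => (h2 j hj l hl).symm, fun h => h ▸ hj⟩
      obtain ⟨ζ, hζ⟩ : ∃ ζ : 𝕜, IsPrimitiveRoot ζ m := HasEnoughRootsOfUnity.exists_primitiveRoot 𝕜 m
      refine ⟨(fun _ i => if i = i₀ then ζ else 1, 1), Or.inl ⟨ζ, hζ.pow_eq_one, rfl⟩,
        fun _ i => ?_, fun _ => Iff.rfl, ?_⟩
      · change (if i = i₀ then ζ else 1) ^ m = 1
        by_cases h3 : i = i₀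
        · rw [if_pos h3, hζ.pow_eq_one]
        · rw [if_neg h3, one_pow]
      · have h3 : Equiv.Perm.subtypePerm (1 : Equiv.Perm (Fin k))
            (fun i => (Iff.rfl : (1 : Equiv.Perm (Fin k)) i ∈ S ↔ i ∈ S)) = 1 :=
          Equiv.ext fun _ => rfl
        change ((Equiv.Perm.sign (Equiv.Perm.subtypePerm (1 : Equiv.Perm (Fin k))
            (fun i => (Iff.rfl : (1 : Equiv.Perm (Fin k)) i ∈ S ↔ i ∈ S))) : ℤ) : 𝕜) ^ N *
          ∏ _j ∈ S, ∏ i, (if i = i₀ then ζ else 1) ^ a i ≠ 1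
        rw [h3, Equiv.Perm.sign_one, Units.val_one, Int.cast_one, one_pow, one_mul, hSj,
          prod_singleton]
        have h4 : (∏ i, (if i = i₀ then ζ else 1) ^ a i) = ζ ^ a i₀ := by
          rw [prod_eq_single i₀]
          · rw [if_pos rfl]
          · intro i _ hi
            rw [if_neg hi, one_pow]
          · intro h
            exact absurd (mem_univ _) h
        rw [h4]
        intro h5
        have h6 := ha.2.2 {i₀} (singleton_nonempty _) (by
          intro h7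
          have h8 := congrArg Finset.card h7
          rw [card_singleton, card_univ, Fintype.card_fin] at h8
          omega)
        rw [sum_singleton] at h6
        exact h6 (hζ.dvd_of_pow_eq_one _ h5)
  · rintro γ (⟨ζ, hζ, rfl⟩ | ⟨σ, rfl⟩) x y hxy
    · exact hcov ζ hζ x y hxy
    · rw [moved_one hxy, hsym]

end Pool.Agent.U840.BL
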