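import Pool.Agent.U840.BL.CY

/-!
# Exterior products of zero-cycles on weighted Fermat Calabi-Yau varieties
-/

set_option autoImplicit false

namespace Pool.Agent.U840.BL

open MvPolynomial Finset Pool.Agent.T2H37.FK Pool.Agent.T2H37.PR Pool.Agent.U840.VS

/-- The zero-cycle `a` on the Fermat hypersurface of degree `m` is invariant under the diagonal
matrices whose `i`-th entries are `w i`-th roots of unity; so it comes from a zero-cycle on the weighted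
Fermat hypersurface with the weights `w`. -/
def WtFixed {𝕜 : Type*} [Field 𝕜] {N m : ℕ} (w : Fin N → ℕ) (a : Fermat 𝕜 N m →₀ ℤ) : Prop :=
  ∀ ζ : Fin N → 𝕜, (∀ i, ζ i ^ w i = 1) → ∀ x y : Fermat 𝕜 N m,
    (∃ c : 𝕜, ∀ i, y.1.rep i = c * (ζ i * x.1.rep i)) → a y = a x

/-- The weights `(1, …, 1, m₀, 2 m₀, …, 2^(s-1) m₀)` with `N₀` weights one. -/
def towerWt (N₀ m₀ : ℕ) {N : ℕ} (i : Fin N) : ℕ :=
  if i.val < N₀ then 1 else 2 ^ (i.val - N₀) * m₀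

lemma towerWt_dvd {N₀ m₀ s N m : ℕ} (hN : N = N₀ + s) (hm : m = 2 ^ s * m₀) (i : Fin N) :
    towerWt N₀ m₀ i ∣ m := by
  rw [towerWt]
  split_ifs with h
  · exact one_dvd _
  · rw [hm]
    have := i.2
    exact Nat.mul_dvd_mul_right (pow_dvd_pow 2 (by omega)) _

lemma tower_cond {N₀ m₀ s N m : ℕ} (hN : N = N₀ + s) (hm₀ : 0 < m₀) (hm : m = 2 ^ s * m₀)
    {α : Fin N → ZMod m} (hα : α ∈ wtSet m (towerWt N₀ m₀ (N := N))) (i : Fin N)
    (hi : N₀ ≤ i.val) : (2 : ZMod m) ^ (N - i.val) * α i = 0 := by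
  have h1 := hα i
  rw [towerWt, if_neg (not_lt.2 hi)] at h1
  have := i.2
  have h2 : m / (2 ^ (i.val - N₀) * m₀) = 2 ^ (N - i.val) := by
    rw [hm]
    have h3 : 2 ^ s = 2 ^ (N - i.val) * 2 ^ (i.val - N₀) := by
      rw [← pow_add]
      congr 1
      omega
    rw [h3, mul_assoc, Nat.mul_div_cancel]
    positivity
  rw [h2] at h1
  push_cast at h1
  exact h1

variable {𝕜 : Type*} [Field 𝕜] [IsAlgClosed 𝕜] [CharZero 𝕜]

/-- Voisin's conjecture for towers of double covers. -/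
theorem voisinTower {N₀ m₀ s N m r : ℕ} (hN : N = N₀ + s) (hm : m = 2 ^ s * m₀) (hN2 : 2 ≤ N)
    (hN₀ : 1 ≤ N₀) (hm₀ : 0 < m₀) (hr : (m₀ - 1).choose (N₀ - 1) < r)
    (z : Fin r → (Fermat 𝕜 N m →₀ ℤ)) (hz : ∀ i, ((z i).sum fun _ c => c) = 0)
    (hinv : ∀ k, WtFixed (towerWt N₀ m₀) (z k)) :
    ∃ j : ℕ, 0 < j ∧ j • ∑ σ : Equiv.Perm (Fin r), ((Equiv.Perm.sign σ : ℤ) ^ (N + 1)) •
      extProd (N := fun _ : Fin r => N) (fun k => z (σ k)) ∈
      RatEquivZero 𝕜 (fun _ : Fin r => N) m := by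
  have hm0 : m ≠ 0 := by
    rw [hm]
    positivity
  have : NeZero m := ⟨hm0⟩
  exact voisinW hN2 (towerWt_dvd hN hm) (fun α hα hα' =>
    exists_eq_tower hN₀ hm₀ hr s hN hm α hα fun j i hi => tower_cond hN hm₀ hm (hα' j) i hi) z hz
    fun ζ hζ x y hxy k => hinv k ζ hζ x y hxy

/-- The weights for which the theorem is proved: the weights `(1, …, 1, N₀, 2 N₀, …, 2^(s-1) N₀)` with
`N₀` weights one and the degree `m = 2 ^ s * N₀`, and the degrees and weights in the list `cy3List`. -/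
def GoodWeights (N m : ℕ) (w : Fin N → ℕ) : Prop :=
  (∃ N₀ s : ℕ, 2 ≤ N₀ ∧ N = N₀ + s ∧ m = 2 ^ s * N₀ ∧ ∀ i, w i = towerWt N₀ N₀ i) ∨
    (m, List.ofFn w) ∈ cy3List

lemma sum_two (N : ℕ) {m : ℕ} (a b : Fermat 𝕜 N m →₀ ℤ) :
    ∑ σ : Equiv.Perm (Fin 2), ((Equiv.Perm.sign σ : ℤ) ^ (N + 1)) •
      extProd (N := fun _ : Fin 2 => N) (fun k => (![a, b] : Fin 2 → (Fermat 𝕜 N m →₀ ℤ)) (σ k)) =
      extProd (N := fun _ : Fin 2 => N) ![a, b] -
        (-1 : ℤ) ^ N • extProd (N := fun _ : Fin 2 => N) ![b, a] := by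
  have h1 : (Finset.univ : Finset (Equiv.Perm (Fin 2))) = {1, Equiv.swap 0 1} := by decide
  rw [h1, Finset.sum_pair (by decide)]
  have h2 : (fun k : Fin 2 => (![a, b] : Fin 2 → (Fermat 𝕜 N m →₀ ℤ))
      ((1 : Equiv.Perm (Fin 2)) k)) = ![a, b] := rfl
  have h3 : (fun k : Fin 2 => (![a, b] : Fin 2 → (Fermat 𝕜 N m →₀ ℤ))
      ((Equiv.swap 0 1 : Equiv.Perm (Fin 2)) k)) = ![b, a] := by
    funext k
    fin_cases k <;> rfl
  rw [h2, h3, Equiv.Perm.sign_one, Equiv.Perm.sign_swap (by decide)]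
  have h4 : ((-1 : ℤˣ) : ℤ) ^ (N + 1) = -((-1 : ℤ) ^ N) := by
    rw [pow_succ]
    norm_num
  rw [h4, Units.val_one, one_pow, one_smul, neg_smul, sub_eq_add_neg]

/-- Voisin's conjecture for the good weights. -/
theorem voisinGood {N m : ℕ} (hN : 3 ≤ N) {w : Fin N → ℕ} (hw : GoodWeights N m w)
    (a b : Fermat 𝕜 N m →₀ ℤ) (ha : (a.sum fun _ c => c) = 0) (hb : (b.sum fun _ c => c) = 0)
    (haw : WtFixed w a) (hbw : WtFixed w b) :
    ∃ j : ℕ, 0 < j ∧ j • (extProd (N := fun _ : Fin 2 => N) ![a, b] -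
      (-1 : ℤ) ^ N • extProd (N := fun _ : Fin 2 => N) ![b, a]) ∈
      RatEquivZero 𝕜 (fun _ : Fin 2 => N) m := by
  rw [← sum_two]
  have hz : ∀ i : Fin 2, (((![a, b] : Fin 2 → (Fermat 𝕜 N m →₀ ℤ)) i).sum fun _ c => c) = 0 := by
    intro i
    fin_cases i
    · exact ha
    · exact hb
  have hf : ∀ i : Fin 2, WtFixed w ((![a, b] : Fin 2 → (Fermat 𝕜 N m →₀ ℤ)) i) := by
    intro i
    fin_cases i
    · exact haw
    · exact hbw
  rcases hw with ⟨N₀, s, hN₀, hNs, hms, hws⟩ | h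
  · have hw' : w = towerWt N₀ N₀ := funext hws
    subst hw'
    exact voisinTower hNs hms (by omega) (by omega) (by omega)
      (by rw [Nat.choose_self]; norm_num) _ hz hf
  · have h1 := cy3_dvd _ h
    exact voisinChk hN h1.1 (fun i => h1.2 _ (List.mem_ofFn.2 ⟨i, rfl⟩)) (cy3_chk _ h) _ hz
      fun ζ hζ x y hxy k => hf k ζ hζ x y hxy

end Pool.Agent.U840.BL
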